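import Pool.Agent.L0h54.SK.Main

set_option autoImplicit false

/-! Approximation through `ℓ_∞^k` gives approximation through the algebra of matrices. -/

namespace Pool.Agent.L0h54.SK

open Finset Filter
open scoped Classical Topology InnerProductSpace

universe u v

section diag

variable {V : Type} [NormedAddCommGroup V] [InnerProductSpace ℂ V] {k : ℕ}

/-- the diagonal operator -/
noncomputable def dg (bs : OrthonormalBasis (Fin k) ℂ V) : (Fin k → ℂ) →ₗ[ℂ] (V →L[ℂ] V) where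
  toFun z := ∑ i, z i • (innerSL ℂ (bs i)).smulRight (bs i)
  map_add' z z' := by
    rw [← sum_add_distrib]
    apply sum_congr rfl; intro i _
    rw [Pi.add_apply, add_smul]
  map_smul' t z := by
    rw [RingHom.id_apply, smul_sum]
    apply sum_congr rfl; intro i _
    rw [Pi.smul_apply, smul_eq_mul, smul_smul]

lemma dg_apply (bs : OrthonormalBasis (Fin k) ℂ V) (z : Fin k → ℂ) (v : V) :
    dg bs z v = ∑ i, (z i * ⟪bs i, v⟫_ℂ) • bs i := by
  unfold dg
  simp only [LinearMap.coe_mk, AddHom.coe_mk]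
  rw [_root_.sum_apply]
  apply sum_congr rfl; intro i _
  rw [ContinuousLinearMap.smul_apply, ContinuousLinearMap.smulRight_apply, innerSL_apply_apply, smul_smul]

lemma dg_norm (bs : OrthonormalBasis (Fin k) ℂ V) (z : Fin k → ℂ) : ‖dg bs z‖ ≤ ‖z‖ := by
  apply ContinuousLinearMap.opNorm_le_bound _ (norm_nonneg _)
  intro v
  have h1 : ‖dg bs z v‖ ^ 2 ≤ (‖z‖ * ‖v‖) ^ 2 := by
    rw [← bs.sum_sq_norm_inner_right (dg bs z v), mul_pow, ← bs.sum_sq_norm_inner_right v, mul_sum]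
    apply sum_le_sum
    intro i _
    have h2 : ⟪bs i, dg bs z v⟫_ℂ = z i * ⟪bs i, v⟫_ℂ := by
      rw [dg_apply, inner_sum]
      rw [sum_eq_single_of_mem i (mem_univ i)]
      · rw [inner_smul_right]
        have := bs.norm_eq_one i
        rw [inner_self_eq_norm_sq_to_K, this]
        simp
      · intro j _ hj
        rw [inner_smul_right, bs.inner_eq_zero hj.symm, mul_zero]
    rw [h2, norm_mul, mul_pow]
    exact mul_le_mul_of_nonneg_right (pow_le_pow_left₀ (norm_nonneg _) (norm_le_pi_norm z i) 2)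
      (by positivity)
  exact le_of_sq_le_sq h1 (by positivity)

/-- the diagonal of an operator -/
noncomputable def ex (bs : OrthonormalBasis (Fin k) ℂ V) : (V →L[ℂ] V) →ₗ[ℂ] (Fin k → ℂ) where
  toFun R := fun i => ⟪bs i, R (bs i)⟫_ℂ
  map_add' R R' := by
    funext i
    rw [Pi.add_apply, ContinuousLinearMap.add_apply, inner_add_right]
  map_smul' t R := by
    funext i
    rw [RingHom.id_apply, Pi.smul_apply, ContinuousLinearMap.smul_apply, inner_smul_right, smul_eq_mul]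

lemma ex_norm (bs : OrthonormalBasis (Fin k) ℂ V) (R : V →L[ℂ] V) : ‖ex bs R‖ ≤ ‖R‖ := by
  rw [pi_norm_le_iff_of_nonneg (norm_nonneg R)]
  intro i
  unfold ex
  simp only [LinearMap.coe_mk, AddHom.coe_mk]
  refine (norm_inner_le_norm _ _).trans ?_
  rw [bs.norm_eq_one, one_mul]
  refine (R.le_opNorm _).trans ?_
  rw [bs.norm_eq_one, mul_one]

lemma ex_dg (bs : OrthonormalBasis (Fin k) ℂ V) (z : Fin k → ℂ) : ex bs (dg bs z) = z := by
  funext i
  unfold ex
  simp only [LinearMap.coe_mk, AddHom.coe_mk]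
  rw [dg_apply, inner_sum, sum_eq_single_of_mem i (mem_univ i)]
  · rw [inner_smul_right, inner_self_eq_norm_sq_to_K, bs.norm_eq_one]
    simp
  · intro j _ hj
    rw [inner_smul_right, bs.inner_eq_zero hj.symm, mul_zero]

end diag

variable {X : Type u} {Y : Type v} [NormedAddCommGroup X] [NormedSpace ℂ X]
  [NormedAddCommGroup Y] [NormedSpace ℂ Y]

theorem zeroEnt_of_linf (π : X →ₗ[ℂ] Y) (x : ℕ → X)
    (h : ∀ δ : ℝ, 0 < δ → ∀ η : ℝ, 0 < η → ∃ᶠ n : ℕ in atTop, ∃ k : ℕ, (k : ℝ) ≤ Real.exp (η * n) ∧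
      ∃ (φ : X →ₗ[ℂ] (Fin k → ℂ)) (ψ : (Fin k → ℂ) →ₗ[ℂ] Y),
      (∀ a, ‖φ a‖ ≤ ‖a‖) ∧ (∀ b, ‖ψ b‖ ≤ ‖b‖) ∧ ∀ h < n, ‖ψ (φ (x h)) - π (x h)‖ ≤ δ) :
    ZeroEnt π x := by
  intro δ hδ η hη
  refine (h δ hδ η hη).mono ?_
  rintro n ⟨k, hk, φ, ψ, h1, h2, h3⟩
  have bs : OrthonormalBasis (Fin k) ℂ (EuclideanSpace ℂ (Fin k)) := EuclideanSpace.basisFun (Fin k) ℂ
  refine ⟨k, hk, EuclideanSpace ℂ (Fin k), inferInstance, inferInstance, inferInstance,
    (dg bs).comp φ, ψ.comp (ex bs), finrank_euclideanSpace_fin, ?_, ?_, ?_⟩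
  · intro a
    rw [LinearMap.comp_apply]
    exact (dg_norm bs _).trans (h1 a)
  · intro b
    rw [LinearMap.comp_apply]
    exact (h2 _).trans (ex_norm bs b)
  · intro i hi
    rw [LinearMap.comp_apply, LinearMap.comp_apply, ex_dg]
    exact h3 i hi

end Pool.Agent.L0h54.SK
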