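import Pool.Agent.L0h54.SK.Main2
import Pool.Agent.L0h54.SK.Diag

set_option autoImplicit false

/-! Approximations through matrices and through `ℓ_∞^k`. -/

namespace Pool.Agent.L0h54.SK

open Finset Filter
open scoped Classical Topology InnerProductSpace Matrix.Norms.L2Operator

universe u v

variable {X : Type u} {Y : Type v} [NormedAddCommGroup X] [NormedSpace ℂ X]
  [NormedAddCommGroup Y] [NormedSpace ℂ Y]

theorem entLe_of_linf (π : X →ₗ[ℂ] Y) (x : ℕ → X) (h : ℝ)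
    (H : ∀ δ : ℝ, 0 < δ → ∀ η : ℝ, 0 < η → ∃ᶠ n : ℕ in atTop, ∃ k : ℕ, (k : ℝ) ≤ Real.exp ((h + η) * n) ∧
      ∃ (φ : X →ₗ[ℂ] (Fin k → ℂ)) (ψ : (Fin k → ℂ) →ₗ[ℂ] Y),
      (∀ a, ‖φ a‖ ≤ ‖a‖) ∧ (∀ b, ‖ψ b‖ ≤ ‖b‖) ∧ ∀ i < n, ‖ψ (φ (x i)) - π (x i)‖ ≤ δ) :
    EntLe π x h := by
  intro δ hδ η hη
  refine (H δ hδ η hη).mono ?_
  rintro n ⟨k, hk, φ, ψ, h1, h2, h3⟩
  have bs : OrthonormalBasis (Fin k) ℂ (EuclideanSpace ℂ (Fin k)) := EuclideanSpace.basisFun (Fin k) ℂ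
  refine ⟨k, hk, EuclideanSpace ℂ (Fin k), inferInstance, inferInstance, inferInstance,
    (dg bs).comp φ, ψ.comp (ex bs), finrank_euclideanSpace_fin, ?_, ?_, ?_⟩
  · intro a
    rw [LinearMap.comp_apply]
    exact (dg_norm bs _).trans (h1 a)
  · intro b
    rw [LinearMap.comp_apply]
    exact (h2 _).trans (ex_norm bs b)
  · intro i hi
    rw [LinearMap.comp_apply, LinearMap.comp_apply, ex_dg]
    exact h3 i hi

/-- matrices as operators -/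
noncomputable def mto (k : ℕ) : Matrix (Fin k) (Fin k) ℂ →ₗ[ℂ]
    (EuclideanSpace ℂ (Fin k) →L[ℂ] EuclideanSpace ℂ (Fin k)) where
  toFun A := Matrix.toEuclideanCLM (n := Fin k) (𝕜 := ℂ) A
  map_add' A B := map_add _ A B
  map_smul' t A := map_smul _ t A

/-- operators as matrices -/
noncomputable def mfr (k : ℕ) : (EuclideanSpace ℂ (Fin k) →L[ℂ] EuclideanSpace ℂ (Fin k)) →ₗ[ℂ]
    Matrix (Fin k) (Fin k) ℂ where
  toFun A := (Matrix.toEuclideanCLM (n := Fin k) (𝕜 := ℂ)).symm A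
  map_add' A B := map_add _ A B
  map_smul' t A := map_smul _ t A

lemma mfr_mto (k : ℕ) (A : Matrix (Fin k) (Fin k) ℂ) : mfr k (mto k A) = A := by
  unfold mfr mto
  simp

lemma mto_norm (k : ℕ) (A : Matrix (Fin k) (Fin k) ℂ) : ‖mto k A‖ = ‖A‖ := by
  rw [Matrix.cstar_norm_def]; rfl

lemma mto_mfr (k : ℕ) (A : EuclideanSpace ℂ (Fin k) →L[ℂ] EuclideanSpace ℂ (Fin k)) :
    mto k (mfr k A) = A := by
  unfold mfr mto
  simp

lemma mfr_norm (k : ℕ) (A : EuclideanSpace ℂ (Fin k) →L[ℂ] EuclideanSpace ℂ (Fin k)) :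
    ‖mfr k A‖ = ‖A‖ := by
  rw [← mto_norm, mto_mfr]

theorem entLe_of_matrix (π : X →ₗ[ℂ] Y) (x : ℕ → X) (h : ℝ)
    (H : ∀ δ : ℝ, 0 < δ → ∀ η : ℝ, 0 < η → ∃ᶠ n : ℕ in atTop, ∃ k : ℕ, (k : ℝ) ≤ Real.exp ((h + η) * n) ∧
      ∃ (φ : X →ₗ[ℂ] Matrix (Fin k) (Fin k) ℂ) (ψ : Matrix (Fin k) (Fin k) ℂ →ₗ[ℂ] Y),
      (∀ a, ‖φ a‖ ≤ ‖a‖) ∧ (∀ b, ‖ψ b‖ ≤ ‖b‖) ∧ ∀ i < n, ‖ψ (φ (x i)) - π (x i)‖ ≤ δ) :
    EntLe π x h := by
  intro δ hδ η hη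
  refine (H δ hδ η hη).mono ?_
  rintro n ⟨k, hk, φ, ψ, h1, h2, h3⟩
  refine ⟨k, hk, EuclideanSpace ℂ (Fin k), inferInstance, inferInstance, inferInstance,
    (mto k).comp φ, ψ.comp (mfr k), finrank_euclideanSpace_fin, ?_, ?_, ?_⟩
  · intro a
    rw [LinearMap.comp_apply, mto_norm]
    exact h1 a
  · intro b
    rw [LinearMap.comp_apply]
    exact (h2 _).trans (mfr_norm k b).le
  · intro i hi
    rw [LinearMap.comp_apply, LinearMap.comp_apply, mfr_mto]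
    exact h3 i hi

end Pool.Agent.L0h54.SK
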