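import Pool.Agent.L0h54.SK.Pat
import Pool.Agent.H220M.Fin9
import Pool.Agent.H220M.M1
import Pool.Agent.H220M.M2
import Pool.Agent.H220M.M3
import Pool.Agent.H220M.M4a
import Pool.Agent.H220M.M4
import Pool.Agent.H220M.M5
import Pool.Agent.H220M.M6a
import Pool.Agent.H220M.M6b
import Pool.Agent.H220M.M6
import Pool.Agent.H220M.P2

set_option autoImplicit false

/-! Vanishing correlations for almost every choice of signs on a thin set of primes. -/

namespace Pool.Agent.L0h54.SK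

open Finset Filter MeasureTheory
open scoped Classical Topology
open Pool.Agent.H220M (coins Thick IsModif finalW tM6 tC0 tM5 tM1 tM2 tM3 tM4 tP2 tM4a tM6a tM6b
  homOf homOf_apply homOf_prime isModif_unique modif isModif_exists)

/-- the random completely multiplicative sign -/
noncomputable def rs (Q : Set ℕ) (ω : ℕ → Bool) (n : ℕ) : ℤ :=
  ∏ q ∈ n.primeFactors.filter (fun q => q ∈ Q), (if ω q = true then (-1 : ℤ) else 1) ^ (n.factorization q)

lemma rs_pm (Q : Set ℕ) (ω : ℕ → Bool) (n : ℕ) : rs Q ω n = 1 ∨ rs Q ω n = -1 := by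
  unfold rs
  apply Finset.prod_induction _ (fun z : ℤ => z = 1 ∨ z = -1)
  · rintro a b (ha | ha) (hb | hb) <;> rw [ha, hb] <;> norm_num
  · left; rfl
  · intro q _
    split_ifs
    · exact neg_one_pow_eq_or ℤ _
    · left; exact one_pow _

/-- the constant function `1` -/
noncomputable def g1 : ℕ →*₀ ℤ := homOf (fun _ => 1)

lemma g1_prime (p : ℕ) (hp : p.Prime) : g1 p = 1 := homOf_prime _ hp

lemma g1_ne (m : ℕ) (hm : m ≠ 0) : g1 m = ((1 : ℤˣ) : ℤ) := by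
  unfold g1
  rw [homOf_apply _ hm]
  simp

lemma modif_rs (Q : Set ℕ) (ω : ℕ → Bool) (m : ℕ) :
    ((modif (fun _ => (1 : ℤˣ)) Q ω m : ℤˣ) : ℤ) = rs Q ω m := by
  unfold modif rs
  rw [one_mul]
  push_cast
  apply prod_congr rfl
  intro q _
  split_ifs <;> simp

theorem ae_corr (Q : Set ℕ) (hQp : ∀ q ∈ Q, q.Prime) (hQ : Thick Q) (w : ℕ → ℝ) (hw : ∀ n, |w n| ≤ 1) :
    ∀ᵐ ω ∂coins, ∀ B : Finset ℕ, B.Nonempty →
      Tendsto (fun x : ℕ => (∑ n ∈ Icc 1 x, w n * ∏ b ∈ B, ((rs Q ω (n + b) : ℤ) : ℝ)) / x) atTop (𝓝 0) := by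
  filter_upwards [finalW (tM6 tC0 (tM5 tM1 tM2 tM3 (tM4 tP2 tM4a)) tM6a tM6b) g1
    (fun p hp => Or.inl (g1_prime p hp)) Q hQp hQ (fun _ => w) (fun _ => hw)] with ω hω
  obtain ⟨f, ⟨hf, hc⟩, -⟩ := hω
  obtain ⟨f', hf', hfm⟩ := isModif_exists g1 (fun _ => 1) g1_ne Q ω
  have hff : f = f' := isModif_unique g1 Q ω f f' hf hf'
  intro B hB
  obtain ⟨k, hk⟩ : ∃ k, B.card = k := ⟨_, rfl⟩
  obtain ⟨em, hem⟩ : ∃ em : Fin k ↪o ℕ, em = B.orderEmbOfFin hk := ⟨_, rfl⟩
  have hk1 : 1 ≤ k := by rw [← hk]; exact card_pos.mpr hB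
  have h1 := hc 0 k (fun _ => 1) (fun i => em i) hk1 (fun _ => le_rfl) (by
    intro i j hij h
    rw [one_mul, one_mul] at h
    exact hij (em.injective h.symm))
  refine h1.congr fun x => ?_
  congr 1
  apply sum_congr rfl
  intro n hn
  rw [mem_Icc] at hn
  congr 1
  have e1 : ∏ b ∈ B, ((rs Q ω (n + b) : ℤ) : ℝ) = ∏ i : Fin k, ((rs Q ω (n + em i) : ℤ) : ℝ) := by
    have h2 : B = univ.image em := by
      rw [hem]
      ext b
      rw [mem_image]
      constructor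
      · intro hb
        have h3 : b ∈ Set.range (B.orderEmbOfFin hk) := by
          rw [Finset.range_orderEmbOfFin]; exact hb
        obtain ⟨i, hi⟩ := h3
        exact ⟨i, mem_univ _, hi⟩
      · rintro ⟨i, -, rfl⟩
        exact B.orderEmbOfFin_mem hk i
    conv_lhs => rw [h2]
    rw [prod_image (fun i _ j _ h => em.injective h)]
  rw [e1]
  apply prod_congr rfl
  intro i _
  rw [one_mul, hff, hfm _ (by omega), modif_rs]

/-- vanishing correlations for ternary sequences -/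
theorem ae_ch (Q : Set ℕ) (hQp : ∀ q ∈ Q, q.Prime) (hQ : Thick Q) (S : Set ℕ) :
    ∀ᵐ ω ∂coins, Ch (fun n => (if n ∈ S then 1 else 0) * ((rs Q ω n : ℤ) : ℝ)) := by
  unfold Ch
  have h : ∀ᵐ ω ∂coins, ∀ B D : Finset ℕ, ∀ B' : Finset ℕ, B'.Nonempty →
      Tendsto (fun x : ℕ => (∑ n ∈ Icc 1 x, ((∏ b ∈ B, (if n + b ∈ S then (1:ℝ) else 0)) *
        ∏ d ∈ D, (if n + d ∈ S then (1:ℝ) else 0)) * ∏ b ∈ B', ((rs Q ω (n + b) : ℤ) : ℝ)) / x)
        atTop (𝓝 0) := by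
    rw [ae_all_iff]; intro B
    rw [ae_all_iff]; intro D
    apply ae_corr Q hQp hQ
    intro n
    have h01 : ∀ (I : Finset ℕ), |∏ b ∈ I, (if n + b ∈ S then (1:ℝ) else 0)| ≤ 1 := by
      intro I
      rw [abs_prod]
      apply prod_le_one (fun _ _ => abs_nonneg _)
      intro b _
      split_ifs <;> norm_num
    rw [abs_mul]
    exact mul_le_one₀ (h01 B) (abs_nonneg _) (h01 D)
  filter_upwards [h] with ω hω
  intro B D hB
  refine (hω B D B hB).congr fun x => ?_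
  congr 1
  apply sum_congr rfl
  intro n _
  rw [prod_mul_distrib]
  have e1 : ∏ d ∈ D, ((if n + d ∈ S then (1:ℝ) else 0) * ((rs Q ω (n + d) : ℤ) : ℝ)) ^ 2 =
      ∏ d ∈ D, (if n + d ∈ S then (1:ℝ) else 0) := by
    apply prod_congr rfl
    intro d _
    rcases rs_pm Q ω (n + d) with h | h <;> rw [h] <;> split_ifs <;> norm_num
  rw [e1]
  ring

end Pool.Agent.L0h54.SK
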