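import Pool.Agent.L0h54.SK.Main
import Pool.Agent.L0h54.SK.Rand

set_option autoImplicit false

/-! Arbitrary bounded weights. -/

namespace Pool.Agent.L0h54.SK

open Finset Filter MeasureTheory
open scoped Classical Topology
open Pool.Agent.H220M (coins Thick)

universe u v

/-- the level sets of the weight -/
def SS (c : ℕ → ℂ) (p : ℕ × ℤ × ℤ) : Set ℕ :=
  {n | ⌊(p.1 : ℝ) * (c n).re⌋ = p.2.1 ∧ ⌊(p.1 : ℝ) * (c n).im⌋ = p.2.2}

/-- the box of values -/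
noncomputable def box (m : ℕ) : Finset (ℤ × ℤ) := Icc (-(m:ℤ)) m ×ˢ Icc (-(m:ℤ)) m

/-- the values -/
noncomputable def zv (m : ℕ) (p : ℤ × ℤ) : ℂ := ((p.1 : ℂ) + p.2 * Complex.I) / m

lemma zv_norm (m : ℕ) (hm : 1 ≤ m) (p : ℤ × ℤ) (hp : p ∈ box m) : ‖zv m p‖ ≤ 2 := by
  unfold box at hp
  rw [mem_product, mem_Icc, mem_Icc] at hp
  have hm0 : (0:ℝ) < m := by exact_mod_cast hm
  unfold zv
  rw [norm_div, Complex.norm_natCast, div_le_iff₀ hm0]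
  have h1 : |(p.1:ℝ)| ≤ m := by
    rw [abs_le]; exact ⟨by exact_mod_cast hp.1.1, by exact_mod_cast hp.1.2⟩
  have h2 : |(p.2:ℝ)| ≤ m := by
    rw [abs_le]; exact ⟨by exact_mod_cast hp.2.1, by exact_mod_cast hp.2.2⟩
  refine (norm_add_le _ _).trans ?_
  rw [norm_mul, Complex.norm_I, mul_one, Complex.norm_intCast, Complex.norm_intCast]
  linarith

lemma fl_mem (m : ℕ) (x : ℝ) (hx : |x| ≤ 1) : ⌊(m:ℝ) * x⌋ ∈ Icc (-(m:ℤ)) m := by
  have h := abs_le.mp hx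
  have hm0 : (0:ℝ) ≤ m := Nat.cast_nonneg m
  rw [mem_Icc]
  constructor
  · rw [Int.le_floor]; push_cast; nlinarith
  · have h1 := Int.floor_le ((m:ℝ) * x)
    have h2 : ((⌊(m:ℝ) * x⌋ : ℤ) : ℝ) ≤ ((m:ℤ) : ℝ) := by push_cast; nlinarith
    exact_mod_cast h2

lemma approx (c : ℕ → ℂ) (hc : ∀ n, ‖c n‖ ≤ 1) (m : ℕ) (hm : 1 ≤ m) (n : ℕ) :
    ‖c n - ∑ p ∈ box m, zv m p * (if n ∈ SS c (m, p) then 1 else 0)‖ ≤ 2 / m := by
  have hm0 : (0:ℝ) < m := by exact_mod_cast hm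
  obtain ⟨p0, hp0⟩ : ∃ p0 : ℤ × ℤ, p0 = (⌊(m : ℝ) * (c n).re⌋, ⌊(m : ℝ) * (c n).im⌋) := ⟨_, rfl⟩
  have hre : |(c n).re| ≤ 1 := (Complex.abs_re_le_norm _).trans (hc n)
  have him : |(c n).im| ≤ 1 := (Complex.abs_im_le_norm _).trans (hc n)
  have hmem : p0 ∈ box m := by
    unfold box
    rw [hp0, mem_product]
    exact ⟨fl_mem m _ hre, fl_mem m _ him⟩
  have h1 : ∑ p ∈ box m, zv m p * (if n ∈ SS c (m, p) then (1:ℂ) else 0) = zv m p0 := by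
    rw [sum_eq_single_of_mem p0 hmem]
    · have : n ∈ SS c (m, p0) := by unfold SS; rw [hp0]; exact ⟨rfl, rfl⟩
      rw [if_pos this, mul_one]
    · intro p _ hne
      have : n ∉ SS c (m, p) := by
        intro h
        apply hne
        unfold SS at h
        rw [hp0]
        exact Prod.ext h.1.symm h.2.symm
      rw [if_neg this, mul_zero]
  rw [h1]
  have h2 : ∀ x : ℝ, |x - (⌊(m:ℝ) * x⌋ : ℝ) / m| ≤ 1 / m := by
    intro x
    have h3 := Int.floor_le ((m:ℝ) * x)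
    have h4 := Int.lt_floor_add_one ((m:ℝ) * x)
    have h5 : x - (⌊(m:ℝ) * x⌋ : ℝ) / m = ((m:ℝ) * x - ⌊(m:ℝ) * x⌋) / m := by field_simp
    rw [h5, abs_div, abs_of_pos hm0]
    apply div_le_div_of_nonneg_right _ hm0.le
    rw [abs_le]
    constructor <;> linarith
  have h3 : c n - zv m p0 = (((c n).re - (⌊(m:ℝ) * (c n).re⌋ : ℝ) / m : ℝ) : ℂ) +
      (((c n).im - (⌊(m:ℝ) * (c n).im⌋ : ℝ) / m : ℝ) : ℂ) * Complex.I := by
    unfold zv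
    rw [hp0]
    conv_lhs => rw [← Complex.re_add_im (c n)]
    push_cast
    simp only [Complex.add_re, Complex.ofReal_re, Complex.mul_re, Complex.I_re, mul_zero,
      Complex.ofReal_im, Complex.I_im, mul_one, sub_self, add_zero, Complex.add_im, Complex.mul_im,
      zero_add]
    ring
  rw [h3]
  refine (norm_add_le _ _).trans ?_
  rw [norm_mul, Complex.norm_I, mul_one, Complex.norm_real, Complex.norm_real, Real.norm_eq_abs,
    Real.norm_eq_abs]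
  have h4 := h2 (c n).re
  have h5 := h2 (c n).im
  calc _ ≤ 1 / (m:ℝ) + 1 / m := add_le_add h4 h5
    _ = 2 / m := by ring

/-- **The almost sure theorem.** -/
theorem final (Q : Set ℕ) (hQp : ∀ q ∈ Q, q.Prime) (hQ : Thick Q) (c : ℕ → ℂ) (hc : ∀ n, ‖c n‖ ≤ 1) :
    ∀ᵐ ω ∂coins, ∀ (X : Type u) (Y : Type v) [NormedAddCommGroup X] [NormedSpace ℂ X]
      [NormedAddCommGroup Y] [NormedSpace ℂ Y] (T : X →ₗ[ℂ] X), (∀ x, ‖T x‖ ≤ ‖x‖) →
      ∀ (π : X →ₗ[ℂ] Y), (∀ x, ‖π x‖ = ‖x‖) → ∀ x : X, ZeroEnt π (fun n => (T ^ n) x) →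
      Tendsto (fun N : ℕ => ‖∑ n ∈ Icc 1 N, (c n * ((rs Q ω n : ℤ) : ℂ)) • (T ^ n) x‖ / N) atTop (𝓝 0) := by
  have h1 : ∀ᵐ ω ∂coins, ∀ p : ℕ × ℤ × ℤ,
      Ch (fun n => (if n ∈ SS c p then 1 else 0) * ((rs Q ω n : ℤ) : ℝ)) := by
    rw [ae_all_iff]
    intro p
    exact ae_ch Q hQp hQ (SS c p)
  filter_upwards [h1] with ω hω
  intro X Y _ _ _ _ T hT π hπ x hx
  have hTn : ∀ n, ∀ z, ‖(T ^ n) z‖ ≤ ‖z‖ := by
    intro n
    induction n with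
    | zero => intro z; simp
    | succ n ih =>
      intro z
      rw [pow_succ]
      exact (ih (T z)).trans (hT z)
  have hp : ∀ p : ℕ × ℤ × ℤ, Tendsto (fun N : ℕ => ‖∑ n ∈ Icc 1 N,
      (((if n ∈ SS c p then 1 else 0) * ((rs Q ω n : ℤ) : ℝ) : ℝ) : ℂ) • (T ^ n) x‖ / N) atTop (𝓝 0) := by
    intro p
    refine norm_disj _ ?_ (hω p) T hT π hπ x hx
    intro n
    rcases rs_pm Q ω n with h | h <;> simp only [h] <;> split_ifs <;> norm_num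
  rw [Metric.tendsto_atTop]
  intro ε hε
  obtain ⟨m, hm⟩ := exists_nat_gt (4 * (‖x‖ + 1) / ε)
  have hm0 : (0:ℝ) < m := lt_of_le_of_lt (by positivity) hm
  have hm1 : 1 ≤ m := by exact_mod_cast hm0
  have hmε : 2 / (m:ℝ) * ‖x‖ ≤ ε / 2 := by
    rw [div_lt_iff₀ hε] at hm
    rw [div_mul_eq_mul_div, div_le_iff₀ hm0]
    nlinarith [norm_nonneg x]
  have hsum : Tendsto (fun N : ℕ => ∑ p ∈ box m, 2 * (‖∑ n ∈ Icc 1 N,
      (((if n ∈ SS c (m, p) then 1 else 0) * ((rs Q ω n : ℤ) : ℝ) : ℝ) : ℂ) • (T ^ n) x‖ / N))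
      atTop (𝓝 0) := by
    have h2 := tendsto_finsetSum (box m) (fun p _ => (hp (m, p)).const_mul 2)
    simpa using h2
  obtain ⟨N₀, hN₀⟩ := eventually_atTop.mp ((hsum.eventually (gt_mem_nhds (half_pos hε))).and
    (eventually_ge_atTop 1))
  refine ⟨N₀, fun N hN => ?_⟩
  obtain ⟨h2, hN1⟩ := hN₀ N hN
  have hN0 : (0:ℝ) < N := by exact_mod_cast hN1
  have h3 : ∑ n ∈ Icc 1 N, (c n * ((rs Q ω n : ℤ) : ℂ)) • (T ^ n) x =
      ∑ n ∈ Icc 1 N, ((c n - ∑ p ∈ box m, zv m p * (if n ∈ SS c (m, p) then 1 else 0)) *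
        ((rs Q ω n : ℤ) : ℂ)) • (T ^ n) x +
      ∑ p ∈ box m, zv m p • ∑ n ∈ Icc 1 N,
        (((if n ∈ SS c (m, p) then 1 else 0) * ((rs Q ω n : ℤ) : ℝ) : ℝ) : ℂ) • (T ^ n) x := by
    simp only [smul_sum]
    rw [sum_comm (s := box m), ← sum_add_distrib]
    apply sum_congr rfl
    intro n _
    simp only [smul_smul]
    rw [← sum_smul, ← add_smul]
    congr 1
    rw [sub_mul, sum_mul]
    have e1 : ∀ p ∈ box m, zv m p * (((if n ∈ SS c (m, p) then 1 else 0) * ((rs Q ω n : ℤ) : ℝ) : ℝ) : ℂ) =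
        zv m p * (if n ∈ SS c (m, p) then 1 else 0) * ((rs Q ω n : ℤ) : ℂ) := by
      intro p _
      split_ifs <;> push_cast <;> ring
    rw [sum_congr rfl e1]
    ring
  have h4 : ‖∑ n ∈ Icc 1 N, ((c n - ∑ p ∈ box m, zv m p * (if n ∈ SS c (m, p) then 1 else 0)) *
        ((rs Q ω n : ℤ) : ℂ)) • (T ^ n) x‖ ≤ N * (2 / m * ‖x‖) := by
    refine (norm_sum_le _ _).trans ?_
    have h5 : ∀ n ∈ Icc 1 N, ‖((c n - ∑ p ∈ box m, zv m p * (if n ∈ SS c (m, p) then 1 else 0)) *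
        ((rs Q ω n : ℤ) : ℂ)) • (T ^ n) x‖ ≤ 2 / m * ‖x‖ := by
      intro n _
      rw [norm_smul, norm_mul]
      have h6 : ‖((rs Q ω n : ℤ) : ℂ)‖ = 1 := by
        rcases rs_pm Q ω n with h | h <;> rw [h] <;> simp
      rw [h6, mul_one]
      exact mul_le_mul (approx c hc m hm1 n) (hTn n x) (norm_nonneg _) (by positivity)
    refine (sum_le_sum h5).trans (le_of_eq ?_)
    rw [sum_const, Nat.card_Icc, Nat.add_sub_cancel, nsmul_eq_mul]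
  have h7 : ‖∑ p ∈ box m, zv m p • ∑ n ∈ Icc 1 N,
        (((if n ∈ SS c (m, p) then 1 else 0) * ((rs Q ω n : ℤ) : ℝ) : ℝ) : ℂ) • (T ^ n) x‖ ≤
      ∑ p ∈ box m, 2 * ‖∑ n ∈ Icc 1 N,
        (((if n ∈ SS c (m, p) then 1 else 0) * ((rs Q ω n : ℤ) : ℝ) : ℝ) : ℂ) • (T ^ n) x‖ := by
    refine (norm_sum_le _ _).trans (sum_le_sum fun p hp => ?_)
    rw [norm_smul]
    exact mul_le_mul_of_nonneg_right (zv_norm m hm1 p hp) (norm_nonneg _)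
  have h8 : ∑ p ∈ box m, 2 * ‖∑ n ∈ Icc 1 N,
        (((if n ∈ SS c (m, p) then 1 else 0) * ((rs Q ω n : ℤ) : ℝ) : ℝ) : ℂ) • (T ^ n) x‖ < N * (ε / 2) := by
    have e2 : ∑ p ∈ box m, 2 * (‖∑ n ∈ Icc 1 N,
      (((if n ∈ SS c (m, p) then 1 else 0) * ((rs Q ω n : ℤ) : ℝ) : ℝ) : ℂ) • (T ^ n) x‖ / N) =
      (∑ p ∈ box m, 2 * ‖∑ n ∈ Icc 1 N,
        (((if n ∈ SS c (m, p) then 1 else 0) * ((rs Q ω n : ℤ) : ℝ) : ℝ) : ℂ) • (T ^ n) x‖) / N := by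
      rw [sum_div]
      apply sum_congr rfl; intro p _; ring
    rw [e2, div_lt_iff₀ hN0] at h2
    linarith
  rw [dist_zero_right, Real.norm_of_nonneg (by positivity), div_lt_iff₀ hN0, h3]
  refine lt_of_le_of_lt (norm_add_le _ _) ?_
  have h9 : (N:ℝ) * (2 / m * ‖x‖) ≤ N * (ε / 2) := mul_le_mul_of_nonneg_left hmε hN0.le
  linarith

end Pool.Agent.L0h54.SK
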