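import Pool.Agent.L0h54.SK.Main2
import Pool.Agent.L0h54.SK.Fin

set_option autoImplicit false

/-! Arbitrary bounded weights and finite entropy. -/

namespace Pool.Agent.L0h54.SK

open Finset Filter MeasureTheory
open scoped Classical Topology
open Pool.Agent.H220M (coins Thick)

universe u v

/-- the level of the weight -/
noncomputable def lev (c : ℕ → ℂ) (m n : ℕ) : ℤ × ℤ := (⌊(m : ℝ) * (c n).re⌋, ⌊(m : ℝ) * (c n).im⌋)

lemma lev_approx (c : ℕ → ℂ) (hc : ∀ n, ‖c n‖ ≤ 1) (m : ℕ) (hm : 1 ≤ m) (n : ℕ) :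
    lev c m n ∈ box m ∧ ‖c n - zv m (lev c m n)‖ ≤ 2 / m := by
  have hre : |(c n).re| ≤ 1 := (Complex.abs_re_le_norm _).trans (hc n)
  have him : |(c n).im| ≤ 1 := (Complex.abs_im_le_norm _).trans (hc n)
  have hmem : lev c m n ∈ box m := by
    unfold box lev
    rw [mem_product]
    exact ⟨fl_mem m _ hre, fl_mem m _ him⟩
  refine ⟨hmem, ?_⟩
  have h1 := approx c hc m hm n
  have h2 : ∑ p ∈ box m, zv m p * (if n ∈ SS c (m, p) then (1:ℂ) else 0) = zv m (lev c m n) := by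
    rw [sum_eq_single_of_mem (lev c m n) hmem]
    · have : n ∈ SS c (m, lev c m n) := by unfold SS lev; exact ⟨rfl, rfl⟩
      rw [if_pos this, mul_one]
    · intro p _ hne
      have : n ∉ SS c (m, p) := by
        intro h
        apply hne
        unfold SS at h
        unfold lev
        exact Prod.ext h.1.symm h.2.symm
      rw [if_neg this, mul_zero]
  rw [h2] at h1
  exact h1

/-- **The almost sure theorem.** -/
theorem final2 (Q : Set ℕ) (hQp : ∀ q ∈ Q, q.Prime) (hQ : Thick Q) (c : ℕ → ℂ) (hc : ∀ n, ‖c n‖ ≤ 1) :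
    ∀ᵐ ω ∂coins, ∀ (X : Type u) (Y : Type v) [NormedAddCommGroup X] [NormedSpace ℂ X]
      [NormedAddCommGroup Y] [NormedSpace ℂ Y] (T : X →ₗ[ℂ] X), (∀ x, ‖T x‖ ≤ ‖x‖) →
      ∀ (π : X →ₗ[ℂ] Y), (∀ x, ‖π x‖ = ‖x‖) → ∀ (x : X) (h : ℝ), 0 ≤ h →
      EntLe π (fun n => (T ^ n) x) h → ∀ ε : ℝ, 0 < ε → ∀ᶠ N : ℕ in atTop,
      ‖∑ n ∈ Icc 1 N, (c n * ((rs Q ω n : ℤ) : ℂ)) • (T ^ n) x‖ ≤
        (3 / 2 * Real.sqrt h * ‖x‖ + ε) * N := by
  have h1 : ∀ᵐ ω ∂coins, ∀ (m L : ℕ) (P : Fin L → ℤ × ℤ),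
      Chw (fun n => ((rs Q ω n : ℤ) : ℝ)) (fun n => if (fun i : Fin L => lev c m (n + i)) = P then 1 else 0) := by
    rw [ae_all_iff]; intro m
    rw [ae_all_iff]; intro L
    rw [ae_all_iff]; intro P
    refine (ae_corr Q hQp hQ (fun n => if (fun i : Fin L => lev c m (n + i)) = P then 1 else 0) ?_).mono
      fun ω hω => hω
    intro n
    split_ifs <;> norm_num
  filter_upwards [h1] with ω hω
  intro X Y _ _ _ _ T hT π hπ x h hh hx ε hε
  have hTn : ∀ n, ∀ z, ‖(T ^ n) z‖ ≤ ‖z‖ := by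
    intro n
    induction n with
    | zero => intro z; simp
    | succ n ih =>
      intro z
      rw [pow_succ]
      exact (ih (T z)).trans (hT z)
  obtain ⟨B, hB⟩ : ∃ B, B = 3 / 2 * Real.sqrt h * ‖x‖ := ⟨_, rfl⟩
  have hB0 : 0 ≤ B := by rw [hB]; positivity
  obtain ⟨m, hm⟩ := exists_nat_gt (4 * (B + ‖x‖ + 1) / ε)
  have hm0 : (0:ℝ) < m := lt_of_le_of_lt (by positivity) hm
  have hm1 : 1 ≤ m := by exact_mod_cast hm0
  have hmε : 2 / (m:ℝ) * (B + ‖x‖) ≤ ε / 2 := by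
    rw [div_lt_iff₀ hε] at hm
    rw [div_mul_eq_mul_div, div_le_iff₀ hm0]
    nlinarith [norm_nonneg x]
  have hfin := fin_bound (fun n => ((rs Q ω n : ℤ) : ℝ)) (fun n => by
      rcases rs_pm Q ω n with h | h <;> simp only [h] <;> norm_num)
    ((box m).filter (fun p => ‖zv m p‖ ≤ 1 + 2 / m)) (lev c m) (fun n => by
      obtain ⟨h2, h3⟩ := lev_approx c hc m hm1 n
      rw [mem_filter]
      refine ⟨h2, ?_⟩
      have h4 := norm_sub_norm_le (zv m (lev c m n)) (c n)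
      rw [norm_sub_rev] at h4
      have := hc n
      linarith) (zv m) (1 + 2 / m) (by positivity) (fun p hp => (mem_filter.mp hp).2)
    (fun L P => by convert hω m L P)
    T hT π hπ x h hh hx (ε / 2) (half_pos hε)
  filter_upwards [hfin] with N hN
  have h3 : ∑ n ∈ Icc 1 N, (c n * ((rs Q ω n : ℤ) : ℂ)) • (T ^ n) x =
      ∑ n ∈ Icc 1 N, ((c n - zv m (lev c m n)) * ((rs Q ω n : ℤ) : ℂ)) • (T ^ n) x +
      ∑ n ∈ Icc 1 N, (zv m (lev c m n) * ((((rs Q ω n : ℤ) : ℝ)) : ℂ)) • (T ^ n) x := by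
    rw [← sum_add_distrib]
    apply sum_congr rfl
    intro n _
    rw [← add_smul]
    congr 1
    push_cast
    ring
  have h4 : ‖∑ n ∈ Icc 1 N, ((c n - zv m (lev c m n)) * ((rs Q ω n : ℤ) : ℂ)) • (T ^ n) x‖ ≤
      N * (2 / m * ‖x‖) := by
    refine (norm_sum_le _ _).trans ?_
    have h5 : ∀ n ∈ Icc 1 N, ‖((c n - zv m (lev c m n)) * ((rs Q ω n : ℤ) : ℂ)) • (T ^ n) x‖ ≤
        2 / m * ‖x‖ := by
      intro n _
      rw [norm_smul, norm_mul]
      have h6 : ‖((rs Q ω n : ℤ) : ℂ)‖ = 1 := by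
        rcases rs_pm Q ω n with h | h <;> rw [h] <;> simp
      rw [h6, mul_one]
      exact mul_le_mul (lev_approx c hc m hm1 n).2 (hTn n x) (norm_nonneg _) (by positivity)
    refine (sum_le_sum h5).trans (le_of_eq ?_)
    rw [sum_const, Nat.card_Icc, Nat.add_sub_cancel, nsmul_eq_mul]
  rw [h3]
  refine (norm_add_le _ _).trans ((add_le_add h4 hN).trans ?_)
  have hNn : (0:ℝ) ≤ N := Nat.cast_nonneg N
  have e1 : (N:ℝ) * (2 / m * ‖x‖) + (3 / 2 * Real.sqrt h * ((1 + 2 / m) * ‖x‖) + ε / 2) * N =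
      (B + 2 / m * (B + ‖x‖) + ε / 2) * N := by rw [hB]; ring
  rw [e1, ← hB]
  apply mul_le_mul_of_nonneg_right _ hNn
  linarith

end Pool.Agent.L0h54.SK
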