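import Pool.Agent.L0h54.SK.Mat

set_option autoImplicit false

/-! Random signs and matrices: the norm of a random sum. -/

namespace Pool.Agent.L0h54.SK

open Finset Filter
open scoped Classical Topology InnerProductSpace

variable {V : Type} [NormedAddCommGroup V] [InnerProductSpace ℂ V] [CompleteSpace V]

lemma hs_bound (k : ℕ) (bs : OrthonormalBasis (Fin k) ℂ V) (R : V →L[ℂ] V) :
    ‖R‖ ^ 2 ≤ ∑ i, ‖R (bs i)‖ ^ 2 := by
  obtain ⟨S, hS⟩ : ∃ S, S = ∑ i, ‖R (bs i)‖ ^ 2 := ⟨_, rfl⟩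
  rw [← hS]
  have hS0 : 0 ≤ S := by rw [hS]; positivity
  have h1 : ‖R‖ ≤ Real.sqrt S := by
    apply ContinuousLinearMap.opNorm_le_bound _ (Real.sqrt_nonneg _)
    intro x
    have h2 : R x = ∑ i, bs.repr x i •
        R (bs i) := by
      conv_lhs => rw [← bs.sum_repr x]
      rw [map_sum]
      simp only [map_smul]
    rw [h2]
    calc ‖∑ i, bs.repr x i • R (bs i)‖
        ≤ ∑ i, ‖bs.repr x i‖ *
          ‖R (bs i)‖ := by
          refine (norm_sum_le _ _).trans (le_of_eq ?_)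
          apply sum_congr rfl; intro i _; rw [norm_smul]
      _ ≤ Real.sqrt (∑ i, ‖bs.repr x i‖ ^ 2) *
          Real.sqrt (∑ i, ‖R (bs i)‖ ^ 2) :=
          Real.sum_mul_le_sqrt_mul_sqrt _ _ _
      _ = Real.sqrt S * ‖x‖ := by
          rw [← hS, mul_comm]
          congr 1
          rw [← EuclideanSpace.norm_eq]
          exact bs.repr.norm_map x
  calc ‖R‖ ^ 2 ≤ (Real.sqrt S) ^ 2 := pow_le_pow_left₀ (norm_nonneg _) h1 2
    _ = S := Real.sq_sqrt hS0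

lemma norm_pow_le (k j : ℕ) (bs : OrthonormalBasis (Fin k) ℂ V) (S : V →L[ℂ] V) :
    ‖S‖ ^ (2 * 2 ^ (j + 1)) ≤ ∑ i, RCLike.re (⟪bs i,
      ((S * star S) ^ (2 ^ (j + 1))) (bs i)⟫_ℂ) := by
  obtain ⟨P, hP⟩ : ∃ P, P = S * star S := ⟨_, rfl⟩
  have hsa : IsSelfAdjoint P := by rw [hP]; exact IsSelfAdjoint.mul_star_self S
  have h1 : ‖S‖ ^ 2 = ‖P‖ := by rw [hP, CStarRing.norm_self_mul_star, sq]
  have h2 : ‖P ^ (2 ^ j)‖ = ‖P‖ ^ (2 ^ j) := by
    have := hsa.nnnorm_pow_two_pow j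
    have h3 := congrArg (fun t : NNReal => (t : ℝ)) this
    simpa using h3
  have hR : IsSelfAdjoint (P ^ (2 ^ j)) := hsa.pow _
  rw [← hP]
  calc ‖S‖ ^ (2 * 2 ^ (j + 1)) = ‖P ^ (2 ^ j)‖ ^ 2 := by
        rw [pow_mul, h1, h2, ← pow_mul, pow_succ]
    _ ≤ ∑ i, ‖(P ^ (2 ^ j)) (bs i)‖ ^ 2 := hs_bound k bs _
    _ = _ := by
        apply sum_congr rfl
        intro i _
        obtain ⟨e, he⟩ : ∃ e, e = bs i := ⟨_, rfl⟩
        rw [← he]
        have h4 : (P ^ (2 ^ (j + 1))) e = (P ^ (2 ^ j)) ((P ^ (2 ^ j)) e) := by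
          rw [pow_succ 2 j, mul_comm (2 ^ j) 2, two_mul, pow_add]
          rfl
        have h5 : (P ^ (2 ^ j)) ((P ^ (2 ^ j)) e) =
            (ContinuousLinearMap.adjoint (P ^ (2 ^ j))) ((P ^ (2 ^ j)) e) := by
          have := hR.star_eq
          rw [ContinuousLinearMap.star_eq_adjoint] at this
          rw [this]
        rw [h4, h5, ContinuousLinearMap.adjoint_inner_right]
        exact (inner_self_eq_norm_sq _).symm

/-- the moment of the norm -/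
lemma norm_mom (k L j : ℕ) (bs : OrthonormalBasis (Fin k) ℂ V) (hL : 1 ≤ L) (a : ℕ → (V →L[ℂ] V)) (M : ℝ)
    (ha : ∀ h ∈ range L, ‖a h‖ ≤ M) :
    ∑ E ∈ (range L).powerset, ‖∑ h ∈ range L, (ep E h : ℂ) • a h‖ ^ (2 * 2 ^ (j + 1)) ≤
      k * (M ^ (2 * 2 ^ (j + 1)) * (2 * 2 ^ L * (2 * (2 ^ (j + 1) : ℕ) * Real.exp 1 * L) ^ (2 ^ (j + 1)))) := by
  obtain ⟨q, hq⟩ : ∃ q, q = 2 ^ (j + 1) := ⟨_, rfl⟩
  have hq1 : 1 ≤ q := by rw [hq]; exact Nat.one_le_two_pow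
  obtain ⟨q', hq'⟩ : ∃ q', q = q' + 1 := ⟨q - 1, by omega⟩
  obtain ⟨F, hF⟩ : ∃ F : Finset ℕ → (V →L[ℂ] V), F = fun E => ∑ h ∈ range L, (ep E h : ℂ) • a h := ⟨_, rfl⟩
  have hd : Dom L F (fun E => ∑ h ∈ range L, ep E h * M) := by
    rw [hF]
    exact Dom.sum (range L) _ _ fun h hh => Dom.term _ (ep_char L h) (a h) M (ha h hh)
  have hd' : Dom L (fun E => star (F E)) (fun E => ∑ h ∈ range L, ep E h * M) := by
    have e : (fun E => star (F E)) = fun E => ∑ h ∈ range L, (ep E h : ℂ) • star (a h) := by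
      funext E
      rw [hF]
      simp only
      rw [star_sum]
      apply sum_congr rfl
      intro h _
      rw [star_smul]
      simp
    rw [e]
    exact Dom.sum (range L) _ _ fun h hh => Dom.term _ (ep_char L h) _ M (by
      rw [norm_star]; exact ha h hh)
  have hev := ((hd.mul hd').pow q').eval
  rw [← hq'] at hev
  have e1 : ∀ E : Finset ℕ, ((∑ h ∈ range L, ep E h * M) * ∑ h ∈ range L, ep E h * M) ^ q =
      M ^ (2 * q) * (∑ h ∈ range L, ep E h) ^ (2 * q) := by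
    intro E
    rw [← sum_mul, ← mul_pow, ← sq, ← pow_mul]
    congr 1; ring
  have hev2 : ‖∑ E ∈ (range L).powerset, (F E * star (F E)) ^ q‖ ≤
      M ^ (2 * q) * (2 * 2 ^ L * (2 * q * Real.exp 1 * L) ^ q) := by
    refine hev.trans ?_
    rw [sum_congr rfl fun E _ => e1 E, ← mul_sum]
    apply mul_le_mul_of_nonneg_left (scalar_mom L q hL hq1)
    rw [pow_mul]; positivity
  have h1 : ∀ E ∈ (range L).powerset, ‖F E‖ ^ (2 * q) ≤ ∑ i, RCLike.re (⟪bs i,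
      ((F E * star (F E)) ^ q) (bs i)⟫_ℂ) := by
    intro E _
    rw [hq]
    exact norm_pow_le k j bs (F E)
  have h2 := sum_le_sum h1
  rw [sum_comm] at h2
  have h3 : ∀ i : Fin k, ∑ E ∈ (range L).powerset, RCLike.re (⟪bs i,
      ((F E * star (F E)) ^ q) (bs i)⟫_ℂ) ≤
      M ^ (2 * q) * (2 * 2 ^ L * (2 * q * Real.exp 1 * L) ^ q) := by
    intro i
    rw [← map_sum, ← inner_sum]
    have e2 : ∑ E ∈ (range L).powerset, ((F E * star (F E)) ^ q) (bs i) =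
        (∑ E ∈ (range L).powerset, (F E * star (F E)) ^ q) (bs i) := by
      rw [_root_.sum_apply]
    rw [e2]
    refine (RCLike.re_le_norm _).trans ((norm_inner_le_norm _ _).trans ?_)
    have hb : ‖bs i‖ = 1 := bs.norm_eq_one i
    rw [hb, one_mul]
    refine (ContinuousLinearMap.le_opNorm _ _).trans ?_
    rw [hb, mul_one]
    exact hev2
  have h4 := h2.trans (sum_le_sum fun i _ => h3 i)
  rw [sum_const, card_univ, Fintype.card_fin, nsmul_eq_mul] at h4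
  rw [← hq]
  rw [hF] at h4
  exact h4

/-- **Random signs and matrices.** -/
theorem mat_bound (ρ : ℝ) (hρ : 0 < ρ) : ∃ η : ℝ, 0 < η ∧ ∃ L₀ : ℕ, 1 ≤ L₀ ∧ ∀ L : ℕ, L₀ ≤ L → ∀ k : ℕ,
    (k:ℝ) ≤ Real.exp (η * L) → ∀ (V : Type) [NormedAddCommGroup V] [InnerProductSpace ℂ V]
    [CompleteSpace V] (_ : OrthonormalBasis (Fin k) ℂ V) (a : ℕ → (V →L[ℂ] V)) (M : ℝ),
    (∀ h ∈ range L, ‖a h‖ ≤ M) →
    ∑ E ∈ (range L).powerset, ‖∑ h ∈ range L, (ep E h : ℂ) • a h‖ ≤ 2 ^ L * (2 * ρ * M * L) := by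
  have he0 : 0 < Real.exp 3 := Real.exp_pos 3
  obtain ⟨L₀, hL₀⟩ := exists_nat_ge (4 * Real.exp 3 / ρ ^ 2)
  refine ⟨ρ ^ 2 / (4 * Real.exp 3), by positivity, max L₀ 1, le_max_right _ _, ?_⟩
  intro L hL k hk V _ _ _ bs a M ha
  have hL1 : 1 ≤ L := (le_max_right _ _).trans hL
  have hLr : (1:ℝ) ≤ L := by exact_mod_cast hL1
  have hL0 : (0:ℝ) < L := by linarith
  have hM0 : 0 ≤ M := (norm_nonneg _).trans (ha 0 (mem_range.mpr (by omega)))
  rcases hM0.eq_or_lt with hM | hM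
  · have h1 : ∀ E ∈ (range L).powerset, ‖∑ h ∈ range L, (ep E h : ℂ) • a h‖ = 0 := by
      intro E _
      rw [norm_eq_zero]
      apply sum_eq_zero
      intro h hh
      have h2 := ha h hh
      rw [← hM] at h2
      rw [norm_le_zero_iff.mp h2, smul_zero]
    rw [sum_congr rfl h1, sum_const_zero, ← hM]
    simp
  -- the exponent
  obtain ⟨y, hy⟩ : ∃ y, y = ρ ^ 2 * L / (2 * Real.exp 3) := ⟨_, rfl⟩
  have hy2 : 2 ≤ y := by
    have h1 : 4 * Real.exp 3 / ρ ^ 2 ≤ L := hL₀.trans (by exact_mod_cast (le_max_left _ _).trans hL)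
    rw [div_le_iff₀ (by positivity)] at h1
    rw [hy, le_div_iff₀ (by positivity)]
    linarith
  have hfl : 2 ≤ ⌊y⌋₊ := Nat.le_floor (by exact_mod_cast hy2)
  have hlog : 1 ≤ Nat.log 2 ⌊y⌋₊ := Nat.le_log_of_pow_le (by norm_num) (by simpa using hfl)
  obtain ⟨j, hj⟩ : ∃ j, Nat.log 2 ⌊y⌋₊ = j + 1 := ⟨Nat.log 2 ⌊y⌋₊ - 1, by omega⟩
  obtain ⟨q, hq⟩ : ∃ q, q = 2 ^ (j + 1) := ⟨_, rfl⟩
  have hq1 : q ≤ ⌊y⌋₊ := by rw [hq, ← hj]; exact Nat.pow_log_le_self 2 (by omega)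
  have hq2 : ⌊y⌋₊ < 2 * q := by
    have := Nat.lt_pow_succ_log_self (b := 2) (by norm_num) ⌊y⌋₊
    rw [hj, pow_succ] at this
    rw [hq]; omega
  have hqy : (q:ℝ) ≤ y := (by exact_mod_cast hq1 : (q:ℝ) ≤ ⌊y⌋₊).trans (Nat.floor_le (by linarith))
  have hqy2 : y ≤ 2 * q := by
    have h1 := Nat.lt_floor_add_one y
    have h2 : ((⌊y⌋₊ : ℕ) : ℝ) + 1 ≤ 2 * q := by exact_mod_cast hq2
    linarith
  have hq1' : 1 ≤ q := by rw [hq]; exact Nat.one_le_two_pow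
  have hqr : (1:ℝ) ≤ q := by exact_mod_cast hq1'
  have hkq : (k:ℝ) ≤ Real.exp q := by
    refine hk.trans (Real.exp_le_exp.mpr ?_)
    have : ρ ^ 2 / (4 * Real.exp 3) * L = y / 2 := by rw [hy]; field_simp; norm_num
    rw [this]; linarith
  have hmom := norm_mom k L j bs hL1 a M ha
  rw [← hq] at hmom
  obtain ⟨τ, hτ⟩ : ∃ τ, τ = ρ * M * L := ⟨_, rfl⟩
  have hτ0 : 0 < τ := by rw [hτ]; positivity
  have hpt : ∀ E ∈ (range L).powerset, ‖∑ h ∈ range L, (ep E h : ℂ) • a h‖ ≤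
      τ + ‖∑ h ∈ range L, (ep E h : ℂ) • a h‖ ^ (2 * q) / τ ^ (2 * q - 1) := by
    intro E _
    obtain ⟨s, hs⟩ : ∃ s, s = ‖∑ h ∈ range L, (ep E h : ℂ) • a h‖ := ⟨_, rfl⟩
    rw [← hs]
    have hs0 : 0 ≤ s := by rw [hs]; exact norm_nonneg _
    rcases le_total s τ with h | h
    · have : 0 ≤ s ^ (2 * q) / τ ^ (2 * q - 1) := by positivity
      linarith
    · have h1 : s ≤ s ^ (2 * q) / τ ^ (2 * q - 1) := by
        rw [le_div_iff₀ (by positivity)]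
        calc s * τ ^ (2 * q - 1) ≤ s * s ^ (2 * q - 1) := by gcongr
          _ = s ^ (2 * q) := by rw [← pow_succ']; congr 1; omega
      linarith
  refine (sum_le_sum hpt).trans ?_
  rw [sum_add_distrib, sum_const, card_powerset, card_range, nsmul_eq_mul, ← sum_div]
  have hkey : 2 * (k:ℝ) * (2 * q * Real.exp 1) ^ q ≤ (ρ ^ 2 * L) ^ q := by
    have h1 : 2 * (q:ℝ) * Real.exp 1 * Real.exp 2 ≤ ρ ^ 2 * L := by
      have h2 : Real.exp 1 * Real.exp 2 = Real.exp 3 := by rw [← Real.exp_add]; norm_num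
      rw [mul_assoc, h2]
      rw [hy, le_div_iff₀ (by positivity)] at hqy
      linarith
    have h3 : 2 * (k:ℝ) ≤ Real.exp 2 ^ q := by
      have h4 : Real.exp 2 ^ q = Real.exp q * Real.exp q := by
        rw [← Real.exp_nat_mul, ← Real.exp_add]; congr 1; ring
      rw [h4]
      have h5 : (2:ℝ) ≤ Real.exp q := by
        have := Real.add_one_le_exp (q:ℝ)
        linarith
      exact mul_le_mul h5 hkq (Nat.cast_nonneg _) (Real.exp_pos _).le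
    calc 2 * (k:ℝ) * (2 * q * Real.exp 1) ^ q ≤ Real.exp 2 ^ q * (2 * q * Real.exp 1) ^ q := by gcongr
      _ = (2 * (q:ℝ) * Real.exp 1 * Real.exp 2) ^ q := by rw [← mul_pow]; congr 1; ring
      _ ≤ _ := pow_le_pow_left₀ (by positivity) h1 q
  have hfin : (∑ E ∈ (range L).powerset, ‖∑ h ∈ range L, (ep E h : ℂ) • a h‖ ^ (2 * q)) / τ ^ (2 * q - 1) ≤
      2 ^ L * τ := by
    rw [div_le_iff₀ (by positivity)]
    refine hmom.trans ?_
    have e1 : 2 ^ L * τ * τ ^ (2 * q - 1) = 2 ^ L * (M ^ (2 * q) * L ^ q * (ρ ^ 2 * L) ^ q) := by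
      have h6 : τ * τ ^ (2 * q - 1) = τ ^ (2 * q) := by rw [← pow_succ']; congr 1; omega
      rw [mul_assoc, h6, hτ]
      rw [mul_pow, mul_pow, mul_pow (ρ ^ 2), ← pow_mul, pow_mul (L:ℝ) 2 q, sq (L:ℝ), mul_pow (L:ℝ) L q]
      ring
    rw [e1]
    calc (k:ℝ) * (M ^ (2 * q) * (2 * 2 ^ L * (2 * q * Real.exp 1 * L) ^ q)) =
        2 ^ L * (M ^ (2 * q) * L ^ q * (2 * (k:ℝ) * (2 * q * Real.exp 1) ^ q)) := by
          rw [mul_pow (2 * (q:ℝ) * Real.exp 1) L q]; ring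
      _ ≤ _ := by gcongr
  push_cast
  calc (2:ℝ) ^ L * τ + (∑ E ∈ (range L).powerset, ‖∑ h ∈ range L, (ep E h : ℂ) • a h‖ ^ (2 * q)) /
        τ ^ (2 * q - 1) ≤ 2 ^ L * τ + 2 ^ L * τ := by linarith
    _ = 2 ^ L * (2 * ρ * M * L) := by rw [hτ]; ring

end Pool.Agent.L0h54.SK
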