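import Pool.Agent.L0h54.SK.Pat
import Pool.Agent.L0h54.SK.Mat2

set_option autoImplicit false

/-! Functions with vanishing correlations are disjoint in norm from orbits of zero entropy. -/

namespace Pool.Agent.L0h54.SK

open Finset Filter
open scoped Classical Topology

universe u v

variable {X : Type u} {Y : Type v} [NormedAddCommGroup X] [NormedSpace ℂ X]
  [NormedAddCommGroup Y] [NormedSpace ℂ Y]

/-- the sequence `x` has approximations of subexponential rank -/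
def ZeroEnt (π : X →ₗ[ℂ] Y) (x : ℕ → X) : Prop :=
  ∀ δ : ℝ, 0 < δ → ∀ η : ℝ, 0 < η → ∃ᶠ n : ℕ in atTop, ∃ k : ℕ, (k : ℝ) ≤ Real.exp (η * n) ∧
    ∃ (V : Type) (_ : NormedAddCommGroup V) (_ : InnerProductSpace ℂ V) (_ : FiniteDimensional ℂ V)
      (φ : X →ₗ[ℂ] (V →L[ℂ] V)) (ψ : (V →L[ℂ] V) →ₗ[ℂ] Y), Module.finrank ℂ V = k ∧
      (∀ a, ‖φ a‖ ≤ ‖a‖) ∧ (∀ b, ‖ψ b‖ ≤ ‖b‖) ∧ ∀ h < n, ‖ψ (φ (x h)) - π (x h)‖ ≤ δ

omit [NormedSpace ℂ X] in
lemma shift_sum (g : ℕ → X) (M : ℝ) (hg : ∀ n, ‖g n‖ ≤ M) (N h : ℕ) :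
    ‖∑ n ∈ Icc 1 N, g (n + h) - ∑ n ∈ Icc 1 N, g n‖ ≤ 2 * M * h := by
  induction h with
  | zero => simp
  | succ h ih =>
    have h1 : ∀ N : ℕ, ∑ n ∈ Icc 1 N, g (n + (h + 1)) - ∑ n ∈ Icc 1 N, g (n + h) =
        g (N + h + 1) - g (h + 1) := by
      intro N
      induction N with
      | zero => simp
      | succ N ihN =>
        rw [sum_Icc_succ_top (by omega), sum_Icc_succ_top (by omega)]
        have e1 : N + 1 + (h + 1) = N + 1 + h + 1 := by ring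
        have e2 : N + 1 + h = N + h + 1 := by ring
        rw [e1, e2, add_sub_add_comm, ihN]
        abel
    have h2 : ‖∑ n ∈ Icc 1 N, g (n + (h + 1)) - ∑ n ∈ Icc 1 N, g (n + h)‖ ≤ 2 * M := by
      rw [h1]
      refine (norm_sub_le _ _).trans ?_
      have := hg (N + h + 1)
      have := hg (h + 1)
      linarith
    have h3 : ∑ n ∈ Icc 1 N, g (n + (h + 1)) - ∑ n ∈ Icc 1 N, g n =
        (∑ n ∈ Icc 1 N, g (n + (h + 1)) - ∑ n ∈ Icc 1 N, g (n + h)) +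
        (∑ n ∈ Icc 1 N, g (n + h) - ∑ n ∈ Icc 1 N, g n) := by abel
    rw [h3]
    refine (norm_add_le _ _).trans ?_
    push_cast
    linarith

lemma F_abs (F : ℕ → ℝ) (hF : ∀ n, F n = 0 ∨ F n = 1 ∨ F n = -1) (n : ℕ) : |F n| ≤ 1 := by
  rcases hF n with h | h | h <;> rw [h] <;> norm_num

lemma flp_eq (E : Finset ℕ) (s : ℕ → ℝ) (h : ℕ) : flp E s h = ep E h * s h := by
  unfold flp ep
  split_ifs <;> ring

/-- the average of the norm over the sign changes -/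
lemma avg_flp (y : ℕ → X) (π : X →ₗ[ℂ] Y) (hπ : ∀ x, ‖π x‖ = ‖x‖) (M ρ : ℝ) (hM : ∀ n, ‖y n‖ ≤ M)
    (hρ : 0 < ρ) (hy : ZeroEnt π y) : ∃ L : ℕ, 1 ≤ L ∧ ∀ s : ℕ → ℝ, (∀ h, |s h| ≤ 1) →
      (1 / 2 ^ L : ℝ) * ∑ E ∈ (range L).powerset, ‖∑ h ∈ range L, (flp E s h : ℂ) • y h‖ ≤
        (2 * ρ * M + ρ) * L := by
  obtain ⟨η, hη, L₀, hL₀, hmat⟩ := mat_bound ρ hρ
  obtain ⟨L, ⟨k, hk, V, _, _, _, φ, ψ, hfr, hφ, hψ, happ⟩, hL⟩ :=
    ((hy ρ hρ η hη).and_eventually (eventually_ge_atTop L₀)).exists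
  refine ⟨L, hL₀.trans hL, fun s hs => ?_⟩
  have : CompleteSpace V := FiniteDimensional.complete ℂ V
  subst hfr
  have h1 := hmat L hL (Module.finrank ℂ V) hk V (stdOrthonormalBasis ℂ V)
    (fun h => (s h : ℂ) • φ (y h)) M (by
      intro h _
      rw [norm_smul, Complex.norm_real, Real.norm_eq_abs]
      calc |s h| * ‖φ (y h)‖ ≤ 1 * M := mul_le_mul (hs h) ((hφ _).trans (hM h)) (norm_nonneg _) zero_le_one
        _ = M := one_mul M)
  have h2 : ∀ E ∈ (range L).powerset, ‖∑ h ∈ range L, (flp E s h : ℂ) • y h‖ ≤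
      ‖∑ h ∈ range L, (ep E h : ℂ) • ((s h : ℂ) • φ (y h))‖ + ρ * L := by
    intro E _
    rw [← hπ]
    have e1 : π (∑ h ∈ range L, (flp E s h : ℂ) • y h) =
        ψ (∑ h ∈ range L, (ep E h : ℂ) • ((s h : ℂ) • φ (y h))) -
        ∑ h ∈ range L, (flp E s h : ℂ) • (ψ (φ (y h)) - π (y h)) := by
      rw [map_sum, map_sum, ← sum_sub_distrib]
      apply sum_congr rfl
      intro h _
      rw [flp_eq, map_smul, map_smul, map_smul, smul_sub, smul_smul]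
      push_cast
      abel
    rw [e1]
    refine (norm_sub_le _ _).trans (add_le_add (hψ _) ?_)
    refine (norm_sum_le _ _).trans ?_
    have h3 : ∀ h ∈ range L, ‖(flp E s h : ℂ) • (ψ (φ (y h)) - π (y h))‖ ≤ ρ := by
      intro h hh
      rw [norm_smul, Complex.norm_real, Real.norm_eq_abs, flp_eq, abs_mul]
      have h4 : |ep E h| = 1 := by unfold ep; split_ifs <;> norm_num
      rw [h4, one_mul]
      calc |s h| * ‖ψ (φ (y h)) - π (y h)‖ ≤ 1 * ρ :=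
            mul_le_mul (hs h) (happ h (mem_range.mp hh)) (norm_nonneg _) zero_le_one
        _ = ρ := one_mul ρ
    refine (sum_le_sum h3).trans (le_of_eq ?_)
    rw [sum_const, card_range, nsmul_eq_mul, mul_comm]
  have h3 := sum_le_sum h2
  rw [sum_add_distrib, sum_const, card_powerset, card_range, nsmul_eq_mul] at h3
  push_cast at h3
  have h4 : (0:ℝ) < 2 ^ L := by positivity
  rw [div_mul_eq_mul_div, one_mul, div_le_iff₀ h4]
  calc _ ≤ _ := h3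
    _ ≤ 2 ^ L * (2 * ρ * M * L) + 2 ^ L * (ρ * L) := by linarith
    _ = _ := by ring

/-- **Disjointness in norm.** -/
theorem norm_disj (F : ℕ → ℝ) (hF : ∀ n, F n = 0 ∨ F n = 1 ∨ F n = -1) (hch : Ch F)
    (T : X →ₗ[ℂ] X) (hT : ∀ x, ‖T x‖ ≤ ‖x‖) (π : X →ₗ[ℂ] Y) (hπ : ∀ x, ‖π x‖ = ‖x‖) (x : X)
    (hx : ZeroEnt π (fun n => (T ^ n) x)) :
    Tendsto (fun N : ℕ => ‖∑ n ∈ Icc 1 N, (F n : ℂ) • (T ^ n) x‖ / N) atTop (𝓝 0) := by
  obtain ⟨y, hy⟩ : ∃ y : ℕ → X, y = fun n => (T ^ n) x := ⟨_, rfl⟩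
  have hTn : ∀ n, ∀ z, ‖(T ^ n) z‖ ≤ ‖z‖ := by
    intro n
    induction n with
    | zero => intro z; simp
    | succ n ih =>
      intro z
      rw [pow_succ]
      exact (ih (T z)).trans (hT z)
  obtain ⟨M, hMd⟩ : ∃ M, M = ‖x‖ := ⟨_, rfl⟩
  have hM0 : 0 ≤ M := by rw [hMd]; exact norm_nonneg x
  have hM : ∀ n, ‖y n‖ ≤ M := by intro n; rw [hy, hMd]; exact hTn n x
  rw [← hy] at hx
  have hgoal : ∀ N, ∑ n ∈ Icc 1 N, (F n : ℂ) • (T ^ n) x = ∑ n ∈ Icc 1 N, (F n : ℂ) • y n := by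
    intro N; rw [hy]
  simp only [hgoal]
  rw [Metric.tendsto_atTop]
  intro ε hε
  obtain ⟨ρ, hρd⟩ : ∃ ρ, ρ = ε / (4 * (M + 1)) := ⟨_, rfl⟩
  have hρ : 0 < ρ := by rw [hρd]; positivity
  have hρ2 : 2 * ρ * M + 2 * ρ = ε / 2 := by rw [hρd]; field_simp; ring
  obtain ⟨L, hL1, havg⟩ := avg_flp y π hπ M ρ hM hρ hx
  have hLr : (1:ℝ) ≤ L := by exact_mod_cast hL1
  have hL0 : (0:ℝ) < L := by linarith
  obtain ⟨G, hG⟩ : ∃ G : (ℕ → ℝ) → ℝ, G = fun s => ‖∑ h ∈ range L, (s h : ℂ) • y h‖ := ⟨_, rfl⟩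
  have hdep : DepOn (range L) G := by
    intro s s' h
    rw [hG]
    simp only
    rw [sum_congr rfl fun i hi => by rw [h i hi]]
  have hsym := sym F hF hch L G hdep
  have hev := hsym.eventually (gt_mem_nhds (show 0 < ρ * L by positivity))
  have hNt : Tendsto (fun N : ℕ => 2 * L * M / (N:ℝ)) atTop (𝓝 0) :=
    tendsto_const_div_atTop_nhds_zero_nat (2 * L * M)
  have hev2 := hNt.eventually (gt_mem_nhds (show 0 < ε / 4 by positivity))
  obtain ⟨N₀, hN₀⟩ := eventually_atTop.mp (hev.and (hev2.and (eventually_ge_atTop 1)))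
  refine ⟨N₀, fun N hN => ?_⟩
  obtain ⟨h1, h2, hN1⟩ := hN₀ N hN
  have hNr : (1:ℝ) ≤ N := by exact_mod_cast hN1
  have hN0 : (0:ℝ) < N := by linarith
  rw [div_lt_iff₀ hN0] at h1
  have h3 : ∑ n ∈ Icc 1 N, G (pat F n) ≤ N * ((2 * ρ * M + 2 * ρ) * L) := by
    rw [sum_sub_distrib] at h1
    have h4 : ∑ n ∈ Icc 1 N, (1 / 2 ^ L : ℝ) * ∑ E ∈ (range L).powerset, G (flp E (pat F n)) ≤
        ∑ n ∈ Icc 1 N, (2 * ρ * M + ρ) * L := by
      apply sum_le_sum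
      intro n _
      rw [hG]
      exact havg (pat F n) fun h => F_abs F hF (n + h)
    rw [sum_const, Nat.card_Icc, Nat.add_sub_cancel, nsmul_eq_mul] at h4
    nlinarith
  obtain ⟨g, hg⟩ : ∃ g : ℕ → X, g = fun n => (F n : ℂ) • y n := ⟨_, rfl⟩
  have hgM : ∀ n, ‖g n‖ ≤ M := by
    intro n
    rw [hg]
    simp only
    rw [norm_smul, Complex.norm_real, Real.norm_eq_abs]
    calc |F n| * ‖y n‖ ≤ 1 * M := mul_le_mul (F_abs F hF n) (hM n) (norm_nonneg _) zero_le_one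
      _ = M := one_mul M
  have h5 : ‖∑ n ∈ Icc 1 N, ∑ h ∈ range L, g (n + h)‖ ≤ ∑ n ∈ Icc 1 N, G (pat F n) := by
    refine (norm_sum_le _ _).trans (sum_le_sum fun n _ => ?_)
    rw [hG, hg]
    simp only
    have e1 : ∑ h ∈ range L, (F (n + h) : ℂ) • y (n + h) =
        (T ^ n) (∑ h ∈ range L, (pat F n h : ℂ) • y h) := by
      rw [map_sum]
      apply sum_congr rfl
      intro h _
      rw [map_smul, hy]
      unfold pat
      simp only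
      rw [pow_add]
      rfl
    rw [e1]
    exact hTn n _
  have h6 : ‖(L:ℂ) • ∑ n ∈ Icc 1 N, g n‖ ≤ ∑ n ∈ Icc 1 N, G (pat F n) + 2 * M * L * L := by
    have e1 : (L:ℂ) • ∑ n ∈ Icc 1 N, g n = ∑ n ∈ Icc 1 N, ∑ h ∈ range L, g (n + h) -
        ∑ h ∈ range L, (∑ n ∈ Icc 1 N, g (n + h) - ∑ n ∈ Icc 1 N, g n) := by
      rw [sum_comm, sum_sub_distrib, sub_sub_cancel, sum_const, card_range]
      rw [← Nat.cast_smul_eq_nsmul ℂ]
    rw [e1]
    refine (norm_sub_le _ _).trans (add_le_add h5 ?_)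
    refine (norm_sum_le _ _).trans ?_
    have h7 : ∀ h ∈ range L, ‖∑ n ∈ Icc 1 N, g (n + h) - ∑ n ∈ Icc 1 N, g n‖ ≤ 2 * M * L := by
      intro h hh
      refine (shift_sum g M hgM N h).trans ?_
      have : (h:ℝ) ≤ L := by exact_mod_cast (mem_range.mp hh).le
      gcongr
    refine (sum_le_sum h7).trans (le_of_eq ?_)
    rw [sum_const, card_range, nsmul_eq_mul]; ring
  rw [norm_smul, Complex.norm_natCast] at h6
  have h8 : ‖∑ n ∈ Icc 1 N, g n‖ / N ≤ (2 * ρ * M + 2 * ρ) + 2 * L * M / N := by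
    rw [add_div' _ _ _ hN0.ne', div_le_div_iff_of_pos_right hN0]
    have h9 : (L:ℝ) * ‖∑ n ∈ Icc 1 N, g n‖ ≤ L * ((2 * ρ * M + 2 * ρ) * N + 2 * L * M) := by
      calc (L:ℝ) * ‖∑ n ∈ Icc 1 N, g n‖ ≤ ∑ n ∈ Icc 1 N, G (pat F n) + 2 * M * L * L := h6
        _ ≤ N * ((2 * ρ * M + 2 * ρ) * L) + 2 * M * L * L := by linarith
        _ = _ := by ring
    exact le_of_mul_le_mul_left h9 hL0
  rw [dist_zero_right, Real.norm_of_nonneg (by positivity)]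
  rw [hg] at h8
  simp only at h8
  linarith

end Pool.Agent.L0h54.SK
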