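import Pool.Agent.L0h54.SK.Mat2

set_option autoImplicit false

/-! Random signs and matrices: the sharp form. -/

namespace Pool.Agent.L0h54.SK

open Finset Filter
open scoped Classical Topology InnerProductSpace

lemma fac_le (n : ℕ) (hn : 1 ≤ n) : ((n.factorial : ℕ) : ℝ) ≤ Real.exp 1 * n * (n / Real.exp 1) ^ n := by
  induction n, hn using Nat.le_induction with
  | base => simp
  | succ n hn ih =>
    have hn0 : (0:ℝ) < n := by exact_mod_cast hn
    have he : 0 < Real.exp 1 := Real.exp_pos 1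
    have h1 : ((n:ℝ) / (n + 1)) ^ (n + 1) ≤ (Real.exp 1)⁻¹ := by
      have h2 : (n:ℝ) / (n + 1) ≤ Real.exp (-(1 / ((n:ℝ) + 1))) := by
        have h3 := Real.add_one_le_exp (-(1 / ((n:ℝ) + 1)))
        have h4 : -(1 / ((n:ℝ) + 1)) + 1 = n / (n + 1) := by field_simp; ring
        rw [h4] at h3
        exact h3
      calc ((n:ℝ) / (n + 1)) ^ (n + 1) ≤ (Real.exp (-(1 / ((n:ℝ) + 1)))) ^ (n + 1) := by gcongr
        _ = (Real.exp 1)⁻¹ := by
          rw [← Real.exp_nat_mul, ← Real.exp_neg]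
          congr 1
          push_cast
          field_simp
    have h5 : (n:ℝ) ^ (n + 1) ≤ (Real.exp 1)⁻¹ * ((n:ℝ) + 1) ^ (n + 1) := by
      rw [div_pow, div_le_iff₀ (by positivity)] at h1
      exact h1
    rw [Nat.factorial_succ]
    push_cast
    calc ((n:ℝ) + 1) * (n.factorial : ℝ) ≤ ((n:ℝ) + 1) * (Real.exp 1 * n * (n / Real.exp 1) ^ n) := by
          gcongr
      _ = ((n:ℝ) + 1) * Real.exp 1 * ((n:ℝ) ^ (n + 1)) / Real.exp 1 ^ n := by
          rw [div_pow]; field_simp; ring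
      _ ≤ ((n:ℝ) + 1) * Real.exp 1 * ((Real.exp 1)⁻¹ * ((n:ℝ) + 1) ^ (n + 1)) / Real.exp 1 ^ n := by
          gcongr
      _ = Real.exp 1 * (n + 1) * ((n + 1) / Real.exp 1) ^ (n + 1) := by
          rw [div_pow, pow_succ (Real.exp 1) n]; field_simp

/-- the scalar moments -/
lemma scalar_mom2 (L q : ℕ) (hL : 1 ≤ L) (hq : 1 ≤ q) :
    ∑ E ∈ (range L).powerset, (∑ h ∈ range L, ep E h) ^ (2 * q) ≤
      2 ^ L * (4 * Real.exp 1 * q * (2 * q * L / Real.exp 1) ^ q) := by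
  have hL0 : (0:ℝ) < L := by exact_mod_cast hL
  have hq0 : (0:ℝ) < q := by exact_mod_cast hq
  obtain ⟨l, hl⟩ : ∃ l, l = Real.sqrt (2 * q / L) := ⟨_, rfl⟩
  have hl2 : l ^ 2 = 2 * q / L := by rw [hl]; exact Real.sq_sqrt (by positivity)
  have hl0 : 0 < l := by rw [hl]; positivity
  have hexp : ∀ t : ℝ, t ^ 2 = l ^ 2 → ∑ E ∈ (range L).powerset,
      Real.exp (t * ∑ h ∈ range L, ep E h) ≤ 2 ^ L * Real.exp q := by
    intro t ht
    have h1 : ∀ E ∈ (range L).powerset, Real.exp (t * ∑ h ∈ range L, ep E h) =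
        (∏ h ∈ E, Real.exp (-t)) * ∏ h ∈ range L \ E, Real.exp t := by
      intro E hE
      rw [mem_powerset] at hE
      rw [mul_sum, Real.exp_sum, ← prod_sdiff hE, mul_comm]
      congr 1
      · apply prod_congr rfl
        intro h hh
        unfold ep
        rw [if_pos hh]; congr 1; ring
      · apply prod_congr rfl
        intro h hh
        unfold ep
        rw [if_neg (mem_sdiff.mp hh).2]; congr 1; ring
    rw [sum_congr rfl h1, ← prod_add, prod_const, card_range]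
    have h2 : Real.exp (-t) + Real.exp t = 2 * Real.cosh t := by rw [Real.cosh_eq]; ring
    rw [h2, mul_pow]
    apply mul_le_mul_of_nonneg_left _ (by positivity)
    calc Real.cosh t ^ L ≤ (Real.exp (t ^ 2 / 2)) ^ L :=
          pow_le_pow_left₀ (Real.cosh_pos t).le (Real.cosh_le_exp_half_sq t) L
      _ = Real.exp q := by
          rw [← Real.exp_nat_mul, ht, hl2]
          congr 1
          field_simp
  have hterm : ∀ E ∈ (range L).powerset, (∑ h ∈ range L, ep E h) ^ (2 * q) ≤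
      ((2 * q).factorial : ℝ) / l ^ (2 * q) * (Real.exp (l * ∑ h ∈ range L, ep E h) +
        Real.exp (-l * ∑ h ∈ range L, ep E h)) := by
    intro E _
    obtain ⟨S, hS⟩ : ∃ S, S = ∑ h ∈ range L, ep E h := ⟨_, rfl⟩
    rw [← hS]
    have h1 := Real.pow_div_factorial_le_exp (|l * S|) (abs_nonneg _) (2 * q)
    have h2 : |l * S| ^ (2 * q) = l ^ (2 * q) * S ^ (2 * q) := by
      rw [pow_mul, sq_abs, mul_pow, mul_pow, ← pow_mul, ← pow_mul]
    have h3 : Real.exp (|l * S|) ≤ Real.exp (l * S) + Real.exp (-l * S) := by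
      rcases abs_choice (l * S) with h | h
      · rw [h]; have := Real.exp_pos (-l * S); linarith
      · rw [h, show -(l * S) = -l * S by ring]; have := Real.exp_pos (l * S); linarith
    have hf : (0:ℝ) < ((2 * q).factorial : ℝ) := by exact_mod_cast Nat.factorial_pos _
    rw [h2, div_le_iff₀ hf] at h1
    have hlq : 0 < l ^ (2 * q) := by positivity
    rw [div_mul_eq_mul_div, le_div_iff₀ hlq]
    calc S ^ (2 * q) * l ^ (2 * q) = l ^ (2 * q) * S ^ (2 * q) := mul_comm _ _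
      _ ≤ Real.exp (|l * S|) * ((2 * q).factorial : ℝ) := h1
      _ ≤ (Real.exp (l * S) + Real.exp (-l * S)) * ((2 * q).factorial : ℝ) := by gcongr
      _ = _ := by ring
  refine (sum_le_sum hterm).trans ?_
  rw [← mul_sum, sum_add_distrib]
  have h5 := hexp l rfl
  have h6 := hexp (-l) (by ring)
  have hfac := fac_le (2 * q) (by omega)
  push_cast at hfac
  calc ((2 * q).factorial : ℝ) / l ^ (2 * q) * (∑ E ∈ (range L).powerset,
        Real.exp (l * ∑ h ∈ range L, ep E h) + ∑ E ∈ (range L).powerset,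
        Real.exp (-l * ∑ h ∈ range L, ep E h)) ≤
      (Real.exp 1 * (2 * q) * (2 * q / Real.exp 1) ^ (2 * q)) / l ^ (2 * q) *
        (2 ^ L * Real.exp q + 2 ^ L * Real.exp q) := by
        gcongr
    _ = 2 ^ L * (4 * Real.exp 1 * q * (2 * q * L / Real.exp 1) ^ q) := by
        have e2 : (2 * (q:ℝ) / Real.exp 1) ^ (2 * q) / l ^ (2 * q) * Real.exp q =
            (2 * q * L / Real.exp 1) ^ q := by
          rw [pow_mul, pow_mul l, hl2, ← div_pow,
            show Real.exp (q:ℝ) = Real.exp 1 ^ q by rw [← Real.exp_nat_mul, mul_one], ← mul_pow]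
          congr 1
          field_simp
        rw [← e2]
        ring

variable {V : Type} [NormedAddCommGroup V] [InnerProductSpace ℂ V] [CompleteSpace V]

/-- the moment of the norm -/
lemma norm_mom2 (k L j : ℕ) (bs : OrthonormalBasis (Fin k) ℂ V) (hL : 1 ≤ L) (a : ℕ → (V →L[ℂ] V))
    (M : ℝ) (ha : ∀ h ∈ range L, ‖a h‖ ≤ M) :
    ∑ E ∈ (range L).powerset, ‖∑ h ∈ range L, (ep E h : ℂ) • a h‖ ^ (2 * 2 ^ (j + 1)) ≤
      k * (M ^ (2 * 2 ^ (j + 1)) * (2 ^ L * (4 * Real.exp 1 * (2 ^ (j + 1) : ℕ) *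
        (2 * (2 ^ (j + 1) : ℕ) * L / Real.exp 1) ^ (2 ^ (j + 1))))) := by
  obtain ⟨q, hq⟩ : ∃ q, q = 2 ^ (j + 1) := ⟨_, rfl⟩
  have hq1 : 1 ≤ q := by rw [hq]; exact Nat.one_le_two_pow
  obtain ⟨q', hq'⟩ : ∃ q', q = q' + 1 := ⟨q - 1, by omega⟩
  obtain ⟨F, hF⟩ : ∃ F : Finset ℕ → (V →L[ℂ] V), F = fun E => ∑ h ∈ range L, (ep E h : ℂ) • a h := ⟨_, rfl⟩
  have hd : Dom L F (fun E => ∑ h ∈ range L, ep E h * M) := by
    rw [hF]
    exact Dom.sum (range L) _ _ fun h hh => Dom.term _ (ep_char L h) (a h) M (ha h hh)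
  have hd' : Dom L (fun E => star (F E)) (fun E => ∑ h ∈ range L, ep E h * M) := by
    have e : (fun E => star (F E)) = fun E => ∑ h ∈ range L, (ep E h : ℂ) • star (a h) := by
      funext E
      rw [hF]
      simp only
      rw [star_sum]
      apply sum_congr rfl
      intro h _
      rw [star_smul]
      simp
    rw [e]
    exact Dom.sum (range L) _ _ fun h hh => Dom.term _ (ep_char L h) _ M (by
      rw [norm_star]; exact ha h hh)
  have hev := ((hd.mul hd').pow q').eval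
  rw [← hq'] at hev
  have e1 : ∀ E : Finset ℕ, ((∑ h ∈ range L, ep E h * M) * ∑ h ∈ range L, ep E h * M) ^ q =
      M ^ (2 * q) * (∑ h ∈ range L, ep E h) ^ (2 * q) := by
    intro E
    rw [← sum_mul, ← mul_pow, ← sq, ← pow_mul]
    congr 1; ring
  have hev2 : ‖∑ E ∈ (range L).powerset, (F E * star (F E)) ^ q‖ ≤
      M ^ (2 * q) * (2 ^ L * (4 * Real.exp 1 * q * (2 * q * L / Real.exp 1) ^ q)) := by
    refine hev.trans ?_
    rw [sum_congr rfl fun E _ => e1 E, ← mul_sum]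
    apply mul_le_mul_of_nonneg_left (scalar_mom2 L q hL hq1)
    rw [pow_mul]; positivity
  have h1 : ∀ E ∈ (range L).powerset, ‖F E‖ ^ (2 * q) ≤ ∑ i, RCLike.re (⟪bs i,
      ((F E * star (F E)) ^ q) (bs i)⟫_ℂ) := by
    intro E _
    rw [hq]
    exact norm_pow_le k j bs (F E)
  have h2 := sum_le_sum h1
  rw [sum_comm] at h2
  have h3 : ∀ i : Fin k, ∑ E ∈ (range L).powerset, RCLike.re (⟪bs i,
      ((F E * star (F E)) ^ q) (bs i)⟫_ℂ) ≤
      M ^ (2 * q) * (2 ^ L * (4 * Real.exp 1 * q * (2 * q * L / Real.exp 1) ^ q)) := by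
    intro i
    rw [← map_sum, ← inner_sum]
    have e2 : ∑ E ∈ (range L).powerset, ((F E * star (F E)) ^ q) (bs i) =
        (∑ E ∈ (range L).powerset, (F E * star (F E)) ^ q) (bs i) := by
      rw [_root_.sum_apply]
    rw [e2]
    refine (RCLike.re_le_norm _).trans ((norm_inner_le_norm _ _).trans ?_)
    have hb : ‖bs i‖ = 1 := bs.norm_eq_one i
    rw [hb, one_mul]
    refine (ContinuousLinearMap.le_opNorm _ _).trans ?_
    rw [hb, mul_one]
    exact hev2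
  have h4 := h2.trans (sum_le_sum fun i _ => h3 i)
  rw [sum_const, card_univ, Fintype.card_fin, nsmul_eq_mul] at h4
  rw [← hq]
  rw [hF] at h4
  exact h4

lemma exp_r (r : ℝ) (h1 : 7 / 10 ≤ r) (h2 : r ≤ 142 / 100) : Real.exp r ≤ 27 / 25 * (Real.exp 1 * r) := by
  obtain ⟨t, ht⟩ : ∃ t, t = r - 1 := ⟨_, rfl⟩
  have hr : r = 1 + t := by rw [ht]; ring
  have ht1 : -(3 / 10) ≤ t := by linarith
  have ht2 : t ≤ 42 / 100 := by linarith
  have habs : |t| ≤ 1 := by rw [abs_le]; constructor <;> linarith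
  have h3 := Real.exp_bound habs (n := 4) (by norm_num)
  have h4 := (abs_le.mp h3).2
  simp only [Finset.sum_range_succ, Finset.sum_range_zero, Nat.factorial, Nat.cast_one, pow_zero,
    zero_add, div_one, pow_one] at h4
  have h5 : |t| ^ 4 = t ^ 4 := by rw [show (4:ℕ) = 2 * 2 by norm_num, pow_mul, sq_abs, ← pow_mul]
  rw [h5] at h4
  norm_num at h4
  have h6 : Real.exp t ≤ 27 / 25 * (1 + t) := by
    have h7 : t ^ 2 / 2 + t ^ 3 / 6 + t ^ 4 * (5 / 96) ≤ 2 / 25 + 2 / 25 * t := by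
      nlinarith [mul_nonneg (show 0 ≤ t + 3 / 10 by linarith) (show 0 ≤ 42 / 100 - t by linarith),
        sq_nonneg t, sq_nonneg (t ^ 2), mul_nonneg (mul_nonneg (show 0 ≤ t + 3 / 10 by linarith)
          (show 0 ≤ 42 / 100 - t by linarith)) (sq_nonneg t),
        mul_nonneg (show 0 ≤ 42 / 100 - t by linarith) (sq_nonneg t)]
    linarith
  rw [hr, Real.exp_add]
  have he := Real.exp_pos 1
  calc Real.exp 1 * Real.exp t ≤ Real.exp 1 * (27 / 25 * (1 + t)) := by gcongr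
    _ = _ := by ring

/-- **Random signs and matrices.** -/
theorem mat_sharp (hh : ℝ) (hh0 : 0 < hh) : ∃ L₀ : ℕ, 1 ≤ L₀ ∧ ∀ L : ℕ, L₀ ≤ L → ∀ k : ℕ,
    (k:ℝ) ≤ Real.exp (hh * L) → ∀ (V : Type) [NormedAddCommGroup V] [InnerProductSpace ℂ V]
    [CompleteSpace V] (_ : OrthonormalBasis (Fin k) ℂ V) (a : ℕ → (V →L[ℂ] V)) (M : ℝ),
    (∀ h ∈ range L, ‖a h‖ ≤ M) →
    ∑ E ∈ (range L).powerset, ‖∑ h ∈ range L, (ep E h : ℂ) • a h‖ ≤
      2 ^ L * (3 / 2 * Real.sqrt hh * M * L) := by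
  have he0 : 0 < Real.exp 1 := Real.exp_pos 1
  have ht := (tendsto_self_mul_const_pow_of_lt_one (show (0:ℝ) ≤ 24 / 25 by norm_num)
    (by norm_num)).eventually (ge_mem_nhds (show (0:ℝ) < 1 / (4 * Real.exp 1) by positivity))
  obtain ⟨q₀, hq₀⟩ := eventually_atTop.mp ht
  obtain ⟨L₀, hL₀⟩ := exists_nat_ge (2 * ((q₀:ℝ) + 1) / (141 / 100 * hh))
  refine ⟨max L₀ 1, le_max_right _ _, ?_⟩
  intro L hL k hk V _ _ _ bs a M ha
  have hL1 : 1 ≤ L := (le_max_right _ _).trans hL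
  have hLr : (1:ℝ) ≤ L := by exact_mod_cast hL1
  have hL0 : (0:ℝ) < L := by linarith
  have hM0 : 0 ≤ M := (norm_nonneg _).trans (ha 0 (mem_range.mpr (by omega)))
  -- the exponent
  obtain ⟨y, hy⟩ : ∃ y, y = 141 / 100 * hh * L := ⟨_, rfl⟩
  have hy2 : 2 * ((q₀:ℝ) + 1) ≤ y := by
    have h1 : 2 * ((q₀:ℝ) + 1) / (141 / 100 * hh) ≤ L := hL₀.trans (by exact_mod_cast (le_max_left _ _).trans hL)
    rw [div_le_iff₀ (by positivity)] at h1
    rw [hy]; linarith
  have hq₀0 : (0:ℝ) ≤ q₀ := Nat.cast_nonneg _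
  have hfl : 2 ≤ ⌊y⌋₊ := Nat.le_floor (by push_cast; linarith)
  have hlog : 1 ≤ Nat.log 2 ⌊y⌋₊ := Nat.le_log_of_pow_le (by norm_num) (by simpa using hfl)
  obtain ⟨j, hj⟩ : ∃ j, Nat.log 2 ⌊y⌋₊ = j + 1 := ⟨Nat.log 2 ⌊y⌋₊ - 1, by omega⟩
  obtain ⟨q, hq⟩ : ∃ q, q = 2 ^ (j + 1) := ⟨_, rfl⟩
  have hq1 : q ≤ ⌊y⌋₊ := by rw [hq, ← hj]; exact Nat.pow_log_le_self 2 (by omega)
  have hq2 : ⌊y⌋₊ < 2 * q := by
    have := Nat.lt_pow_succ_log_self (b := 2) (by norm_num) ⌊y⌋₊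
    rw [hj, pow_succ] at this
    rw [hq]; omega
  have hqy : (q:ℝ) ≤ y := (by exact_mod_cast hq1 : (q:ℝ) ≤ ⌊y⌋₊).trans (Nat.floor_le (by linarith))
  have hqy2 : y ≤ 2 * q := by
    have h1 := Nat.lt_floor_add_one y
    have h2 : ((⌊y⌋₊ : ℕ) : ℝ) + 1 ≤ 2 * q := by exact_mod_cast hq2
    linarith
  have hq1' : 1 ≤ q := by rw [hq]; exact Nat.one_le_two_pow
  have hqr : (1:ℝ) ≤ q := by exact_mod_cast hq1'
  have hq0 : (0:ℝ) < q := by linarith
  have hqq₀ : q₀ ≤ q := by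
    have : (q₀:ℝ) ≤ q := by linarith
    exact_mod_cast this
  have hsmall := hq₀ q hqq₀
  obtain ⟨r, hr⟩ : ∃ r, r = hh * L / q := ⟨_, rfl⟩
  have hrq : hh * L = r * q := by rw [hr]; field_simp
  have hr1 : 7 / 10 ≤ r := by
    rw [hr, le_div_iff₀ hq0]
    nlinarith
  have hr2 : r ≤ 142 / 100 := by
    rw [hr, div_le_iff₀ hq0]
    nlinarith
  have hr0 : 0 < r := by linarith
  have hexpr := exp_r r hr1 hr2
  have hmom := norm_mom2 k L j bs hL1 a M ha
  rw [← hq] at hmom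
  have hkey : (k:ℝ) * (4 * Real.exp 1 * q * (2 * q * L / Real.exp 1) ^ q) ≤ (9 / 4 * hh * L ^ 2) ^ q := by
    have h1 : (k:ℝ) ≤ (Real.exp r) ^ q := by
      refine hk.trans (le_of_eq ?_)
      rw [← Real.exp_nat_mul, hrq]; congr 1; ring
    have h2 : (k:ℝ) * (4 * Real.exp 1 * q) ≤ (9 / 8 * (Real.exp 1 * r)) ^ q := by
      calc (k:ℝ) * (4 * Real.exp 1 * q) ≤ (27 / 25 * (Real.exp 1 * r)) ^ q * (4 * Real.exp 1 * q) := by
            apply mul_le_mul_of_nonneg_right _ (by positivity)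
            exact h1.trans (pow_le_pow_left₀ (Real.exp_pos _).le hexpr q)
        _ = (9 / 8 * (Real.exp 1 * r)) ^ q * ((q * (24 / 25) ^ q) * (4 * Real.exp 1)) := by
            rw [show 27 / 25 * (Real.exp 1 * r) = (9 / 8 * (Real.exp 1 * r)) * (24 / 25) by ring, mul_pow]
            ring
        _ ≤ (9 / 8 * (Real.exp 1 * r)) ^ q * 1 := by
            apply mul_le_mul_of_nonneg_left _ (by positivity)
            rw [le_div_iff₀ (by positivity)] at hsmall
            exact hsmall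
        _ = _ := mul_one _
    calc (k:ℝ) * (4 * Real.exp 1 * q * (2 * q * L / Real.exp 1) ^ q) =
        ((k:ℝ) * (4 * Real.exp 1 * q)) * (2 * q * L / Real.exp 1) ^ q := by ring
      _ ≤ (9 / 8 * (Real.exp 1 * r)) ^ q * (2 * q * L / Real.exp 1) ^ q := by gcongr
      _ = (9 / 4 * hh * L ^ 2) ^ q := by
          rw [← mul_pow]
          congr 1
          rw [hr]
          field_simp
          ring
  -- Jensen
  obtain ⟨A, hA⟩ : ∃ A, A = ∑ E ∈ (range L).powerset, (1 / 2 ^ L : ℝ) *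
      ‖∑ h ∈ range L, (ep E h : ℂ) • a h‖ := ⟨_, rfl⟩
  have hA0 : 0 ≤ A := by rw [hA]; positivity
  have hjen : A ^ (2 * q) ≤ ∑ E ∈ (range L).powerset, (1 / 2 ^ L : ℝ) *
      ‖∑ h ∈ range L, (ep E h : ℂ) • a h‖ ^ (2 * q) := by
    rw [hA]
    apply Real.pow_arith_mean_le_arith_mean_pow
    · intro E _; positivity
    · rw [sum_const, card_powerset, card_range, nsmul_eq_mul]
      push_cast
      field_simp
    · intro E _; exact norm_nonneg _
  have h2L : (0:ℝ) < 2 ^ L := by positivity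
  have hA2 : A ^ (2 * q) ≤ (3 / 2 * Real.sqrt hh * M * L) ^ (2 * q) := by
    calc A ^ (2 * q) ≤ _ := hjen
      _ = (1 / 2 ^ L : ℝ) * ∑ E ∈ (range L).powerset,
          ‖∑ h ∈ range L, (ep E h : ℂ) • a h‖ ^ (2 * q) := by rw [mul_sum]
      _ ≤ (1 / 2 ^ L : ℝ) * (k * (M ^ (2 * q) * (2 ^ L * (4 * Real.exp 1 * q *
          (2 * q * L / Real.exp 1) ^ q)))) := by
          apply mul_le_mul_of_nonneg_left hmom (by positivity)
      _ = M ^ (2 * q) * ((k:ℝ) * (4 * Real.exp 1 * q * (2 * q * L / Real.exp 1) ^ q)) := by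
          field_simp
      _ ≤ M ^ (2 * q) * (9 / 4 * hh * L ^ 2) ^ q := by gcongr
      _ = (3 / 2 * Real.sqrt hh * M * L) ^ (2 * q) := by
          rw [pow_mul M 2 q, ← mul_pow, pow_mul (3 / 2 * Real.sqrt hh * M * L) 2 q]
          congr 1
          have hs : Real.sqrt hh ^ 2 = hh := Real.sq_sqrt hh0.le
          calc M ^ 2 * (9 / 4 * hh * L ^ 2) = M ^ 2 * (9 / 4 * (Real.sqrt hh ^ 2) * L ^ 2) := by rw [hs]
            _ = _ := by ring
  have hA3 : A ≤ 3 / 2 * Real.sqrt hh * M * L :=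
    le_of_pow_le_pow_left₀ (by omega) (by positivity) hA2
  rw [← mul_sum] at hA
  have h9 : ∑ E ∈ (range L).powerset, ‖∑ h ∈ range L, (ep E h : ℂ) • a h‖ = 2 ^ L * A := by
    rw [hA]; field_simp
  rw [h9]
  exact mul_le_mul_of_nonneg_left hA3 h2L.le

end Pool.Agent.L0h54.SK
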