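import Pool.Agent.L0h54.SK.PatW
import Pool.Agent.L0h54.SK.Mat3
import Pool.Agent.L0h54.SK.Main

set_option autoImplicit false

/-! Functions with vanishing correlations and orbits of finite entropy. -/

namespace Pool.Agent.L0h54.SK

open Finset Filter
open scoped Classical Topology

universe u v

variable {X : Type u} {Y : Type v} [NormedAddCommGroup X] [NormedSpace ℂ X]
  [NormedAddCommGroup Y] [NormedSpace ℂ Y]

/-- the approximation entropy of the sequence `x` is at most `h` -/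
def EntLe (π : X →ₗ[ℂ] Y) (x : ℕ → X) (h : ℝ) : Prop :=
  ∀ δ : ℝ, 0 < δ → ∀ η : ℝ, 0 < η → ∃ᶠ n : ℕ in atTop, ∃ k : ℕ, (k : ℝ) ≤ Real.exp ((h + η) * n) ∧
    ∃ (V : Type) (_ : NormedAddCommGroup V) (_ : InnerProductSpace ℂ V) (_ : FiniteDimensional ℂ V)
      (φ : X →ₗ[ℂ] (V →L[ℂ] V)) (ψ : (V →L[ℂ] V) →ₗ[ℂ] Y), Module.finrank ℂ V = k ∧
      (∀ a, ‖φ a‖ ≤ ‖a‖) ∧ (∀ b, ‖ψ b‖ ≤ ‖b‖) ∧ ∀ i < n, ‖ψ (φ (x i)) - π (x i)‖ ≤ δ

/-- the average of the norm over the sign changes -/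
lemma avg_flp2 (y : ℕ → X) (π : X →ₗ[ℂ] Y) (hπ : ∀ x, ‖π x‖ = ‖x‖) (C M h ρ : ℝ) (hC : 0 ≤ C)
    (hM0 : 0 ≤ M) (hh : 0 ≤ h) (hM : ∀ n, ‖y n‖ ≤ M) (hρ : 0 < ρ) (hy : EntLe π y h) :
    ∃ L : ℕ, 1 ≤ L ∧ ∀ (P : ℕ → ℂ) (s : ℕ → ℝ), (∀ i, ‖P i‖ ≤ C) → (∀ i, |s i| ≤ 1) →
      (1 / 2 ^ L : ℝ) * ∑ E ∈ (range L).powerset, ‖∑ i ∈ range L, (P i * (flp E s i : ℂ)) • y i‖ ≤
        (3 / 2 * Real.sqrt h * (C * M) + ρ) * L := by
  obtain ⟨D, hD⟩ : ∃ D, D = C * M + C + 1 := ⟨_, rfl⟩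
  have hCM : 0 ≤ C * M := mul_nonneg hC hM0
  have hD0 : 0 < D := by rw [hD]; linarith
  obtain ⟨t, ht⟩ : ∃ t, t = ρ / (3 * D) := ⟨_, rfl⟩
  have ht0 : 0 < t := by rw [ht]; positivity
  have hη : 0 < t ^ 2 := by positivity
  have hδ : 0 < ρ / (2 * D) := by positivity
  have hhη : 0 < h + t ^ 2 := by linarith
  obtain ⟨L₀, hL₀, hmat⟩ := mat_sharp (h + t ^ 2) hhη
  obtain ⟨L, ⟨k, hk, V, _, _, _, φ, ψ, hfr, hφ, hψ, happ⟩, hL⟩ :=
    ((hy _ hδ _ hη).and_eventually (eventually_ge_atTop L₀)).exists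
  refine ⟨L, hL₀.trans hL, fun P s hP hs => ?_⟩
  have : CompleteSpace V := FiniteDimensional.complete ℂ V
  subst hfr
  have hPs : ∀ i, ‖P i * (s i : ℂ)‖ ≤ C := by
    intro i
    rw [norm_mul, Complex.norm_real, Real.norm_eq_abs]
    calc ‖P i‖ * |s i| ≤ C * 1 := mul_le_mul (hP i) (hs i) (abs_nonneg _) hC
      _ = C := mul_one C
  have h1 := hmat L hL (Module.finrank ℂ V) hk V (stdOrthonormalBasis ℂ V)
    (fun i => (P i * (s i : ℂ)) • φ (y i)) (C * M) (by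
      intro i _
      rw [norm_smul]
      exact mul_le_mul (hPs i) ((hφ _).trans (hM i)) (norm_nonneg _) hC)
  have h2 : ∀ E ∈ (range L).powerset, ‖∑ i ∈ range L, (P i * (flp E s i : ℂ)) • y i‖ ≤
      ‖∑ i ∈ range L, (ep E i : ℂ) • ((P i * (s i : ℂ)) • φ (y i))‖ + ρ / 2 * L := by
    intro E _
    rw [← hπ]
    have e1 : π (∑ i ∈ range L, (P i * (flp E s i : ℂ)) • y i) =
        ψ (∑ i ∈ range L, (ep E i : ℂ) • ((P i * (s i : ℂ)) • φ (y i))) -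
        ∑ i ∈ range L, (P i * (flp E s i : ℂ)) • (ψ (φ (y i)) - π (y i)) := by
      rw [map_sum, map_sum, ← sum_sub_distrib]
      apply sum_congr rfl
      intro i _
      rw [flp_eq, map_smul, map_smul, map_smul, smul_sub, smul_smul]
      push_cast
      have : (ep E i : ℂ) * (P i * (s i : ℂ)) = P i * ((ep E i : ℂ) * (s i : ℂ)) := by ring
      rw [this]
      abel
    rw [e1]
    refine (norm_sub_le _ _).trans (add_le_add (hψ _) ?_)
    refine (norm_sum_le _ _).trans ?_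
    have h3 : ∀ i ∈ range L, ‖(P i * (flp E s i : ℂ)) • (ψ (φ (y i)) - π (y i))‖ ≤ ρ / 2 := by
      intro i hi
      rw [norm_smul, flp_eq]
      have h4 : ‖P i * ((ep E i * s i : ℝ) : ℂ)‖ ≤ C := by
        have h5 : |ep E i| = 1 := by unfold ep; split_ifs <;> norm_num
        rw [norm_mul, Complex.norm_real, Real.norm_eq_abs, abs_mul, h5, one_mul]
        calc ‖P i‖ * |s i| ≤ C * 1 := mul_le_mul (hP i) (hs i) (abs_nonneg _) hC
          _ = C := mul_one C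
      calc ‖P i * ((ep E i * s i : ℝ) : ℂ)‖ * ‖ψ (φ (y i)) - π (y i)‖ ≤ C * (ρ / (2 * D)) :=
            mul_le_mul h4 (happ i (mem_range.mp hi)) (norm_nonneg _) hC
        _ = ρ / 2 * (C / D) := by field_simp
        _ ≤ ρ / 2 * 1 := by
            apply mul_le_mul_of_nonneg_left _ (by positivity)
            rw [div_le_one hD0, hD]; linarith
        _ = ρ / 2 := mul_one _
    refine (sum_le_sum h3).trans (le_of_eq ?_)
    rw [sum_const, card_range, nsmul_eq_mul, mul_comm]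
  have h3 := sum_le_sum h2
  rw [sum_add_distrib, sum_const, card_powerset, card_range, nsmul_eq_mul] at h3
  push_cast at h3
  have h4 : (0:ℝ) < 2 ^ L := by positivity
  have hsq : Real.sqrt (h + t ^ 2) ≤ Real.sqrt h + t := by
    rw [Real.sqrt_le_iff]
    have h5 := Real.sqrt_nonneg h
    have h6 := Real.sq_sqrt hh
    refine ⟨by linarith, ?_⟩
    nlinarith
  have hfin : 3 / 2 * Real.sqrt (h + t ^ 2) * (C * M) ≤ 3 / 2 * Real.sqrt h * (C * M) + ρ / 2 := by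
    have h6 : 3 / 2 * t * (C * M) ≤ ρ / 2 := by
      rw [ht]
      have : 3 / 2 * (ρ / (3 * D)) * (C * M) = ρ / 2 * (C * M / D) := by field_simp
      rw [this]
      calc ρ / 2 * (C * M / D) ≤ ρ / 2 * 1 := by
            apply mul_le_mul_of_nonneg_left _ (by positivity)
            rw [div_le_one hD0, hD]; linarith
        _ = ρ / 2 := mul_one _
    calc 3 / 2 * Real.sqrt (h + t ^ 2) * (C * M) ≤ 3 / 2 * (Real.sqrt h + t) * (C * M) := by gcongr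
      _ = 3 / 2 * Real.sqrt h * (C * M) + 3 / 2 * t * (C * M) := by ring
      _ ≤ _ := by linarith
  have hLn : (0:ℝ) ≤ L := Nat.cast_nonneg L
  rw [div_mul_eq_mul_div, one_mul, div_le_iff₀ h4]
  calc _ ≤ _ := h3
    _ ≤ 2 ^ L * (3 / 2 * Real.sqrt (h + t ^ 2) * (C * M) * L) + 2 ^ L * (ρ / 2 * L) := by linarith
    _ ≤ 2 ^ L * ((3 / 2 * Real.sqrt h * (C * M) + ρ / 2) * L) + 2 ^ L * (ρ / 2 * L) := by gcongr
    _ = _ := by ring

/-- **Disjointness in norm up to the entropy.** -/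
theorem fin_bound {ι₀ : Type} (f : ℕ → ℝ) (hf : ∀ n, f n = 1 ∨ f n = -1) (K : Finset ι₀) (κ : ℕ → ι₀)
    (hκ : ∀ n, κ n ∈ K) (val : ι₀ → ℂ) (C : ℝ) (hC : 0 ≤ C) (hval : ∀ p ∈ K, ‖val p‖ ≤ C)
    (hch : ∀ (L : ℕ) (P : Fin L → ι₀), Chw f (fun n => if (fun i : Fin L => κ (n + i)) = P then 1 else 0))
    (T : X →ₗ[ℂ] X) (hT : ∀ x, ‖T x‖ ≤ ‖x‖) (π : X →ₗ[ℂ] Y) (hπ : ∀ x, ‖π x‖ = ‖x‖) (x : X)
    (h : ℝ) (hh : 0 ≤ h) (hx : EntLe π (fun n => (T ^ n) x) h) (ε : ℝ) (hε : 0 < ε) :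
    ∀ᶠ N : ℕ in atTop, ‖∑ n ∈ Icc 1 N, (val (κ n) * (f n : ℂ)) • (T ^ n) x‖ ≤
      (3 / 2 * Real.sqrt h * (C * ‖x‖) + ε) * N := by
  obtain ⟨y, hy⟩ : ∃ y : ℕ → X, y = fun n => (T ^ n) x := ⟨_, rfl⟩
  have hTn : ∀ n, ∀ z, ‖(T ^ n) z‖ ≤ ‖z‖ := by
    intro n
    induction n with
    | zero => intro z; simp
    | succ n ih =>
      intro z
      rw [pow_succ]
      exact (ih (T z)).trans (hT z)
  obtain ⟨M, hMd⟩ : ∃ M, M = ‖x‖ := ⟨_, rfl⟩
  have hM0 : 0 ≤ M := by rw [hMd]; exact norm_nonneg x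
  have hM : ∀ n, ‖y n‖ ≤ M := by intro n; rw [hy, hMd]; exact hTn n x
  rw [← hy] at hx
  have hgoal : ∀ N, ∑ n ∈ Icc 1 N, (val (κ n) * (f n : ℂ)) • (T ^ n) x =
      ∑ n ∈ Icc 1 N, (val (κ n) * (f n : ℂ)) • y n := by
    intro N; rw [hy]
  simp only [hgoal]
  rw [← hMd]
  have hf1 : ∀ n, |f n| ≤ 1 := by
    intro n
    rcases hf n with h | h <;> rw [h] <;> norm_num
  have hvalk : ∀ n, ‖val (κ n)‖ ≤ C := fun n => hval _ (hκ n)
  obtain ⟨L, hL1, havg⟩ := avg_flp2 y π hπ C M h (ε / 3) hC hM0 hh hM (by positivity) hx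
  have hLr : (1:ℝ) ≤ L := by exact_mod_cast hL1
  have hL0 : (0:ℝ) < L := by linarith
  obtain ⟨H, hH⟩ : ∃ H : (Fin L → ι₀) → (ℕ → ℝ) → ℝ, H = fun P s =>
    ‖∑ i : Fin L, (val (P i) * (s i : ℂ)) • y i‖ := ⟨_, rfl⟩
  have hdep : ∀ P, DepOn (range L) (H P) := by
    intro P s s' h
    rw [hH]
    simp only
    have e : ∀ i : Fin L, s i = s' i := fun i => h i (mem_range.mpr i.2)
    simp only [e]
  have hsym := symFin f hf L (Fintype.piFinset (fun _ : Fin L => K)) (fun n => fun i : Fin L => κ (n + i))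
    (fun n => by rw [Fintype.mem_piFinset]; intro i; exact hκ _) (fun P _ => by convert hch L P) H hdep
  have hev := hsym.eventually (gt_mem_nhds (show 0 < ε / 3 * L by positivity))
  have hNt : Tendsto (fun N : ℕ => 2 * L * (C * M) / (N:ℝ)) atTop (𝓝 0) :=
    tendsto_const_div_atTop_nhds_zero_nat (2 * L * (C * M))
  have hev2 := hNt.eventually (gt_mem_nhds (show 0 < ε / 3 by positivity))
  filter_upwards [hev, hev2, eventually_ge_atTop 1] with N h1 h2 hN1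
  have hNr : (1:ℝ) ≤ N := by exact_mod_cast hN1
  have hN0 : (0:ℝ) < N := by linarith
  rw [div_lt_iff₀ hN0] at h1
  obtain ⟨b, hb⟩ : ∃ b, b = 3 / 2 * Real.sqrt h * (C * M) := ⟨_, rfl⟩
  have hHval : ∀ n, H (fun i : Fin L => κ (n + i)) (pat f n) =
      ‖∑ i ∈ range L, (val (κ (n + i)) * (f (n + i) : ℂ)) • y i‖ := by
    intro n
    rw [hH]
    simp only
    rw [Finset.sum_range (fun i => (val (κ (n + i)) * (f (n + i) : ℂ)) • y i)]
    rfl
  have h3 : ∑ n ∈ Icc 1 N, H (fun i : Fin L => κ (n + i)) (pat f n) ≤ N * ((b + ε / 3 + ε / 3) * L) := by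
    rw [sum_sub_distrib] at h1
    have h4 : ∑ n ∈ Icc 1 N, (1 / 2 ^ L : ℝ) * ∑ E ∈ (range L).powerset,
        H (fun i : Fin L => κ (n + i)) (flp E (pat f n)) ≤ ∑ n ∈ Icc 1 N, (b + ε / 3) * L := by
      apply sum_le_sum
      intro n _
      have h5 := havg (fun i => val (κ (n + i))) (pat f n) (fun i => hvalk _) (fun i => hf1 _)
      rw [hH, hb]
      simp only
      refine le_trans (le_of_eq ?_) h5
      congr 1
      apply sum_congr rfl
      intro E _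
      rw [Finset.sum_range (fun i => (val (κ (n + i)) * (flp E (pat f n) i : ℂ)) • y i)]
    rw [sum_const, Nat.card_Icc, Nat.add_sub_cancel, nsmul_eq_mul] at h4
    nlinarith
  obtain ⟨g, hg⟩ : ∃ g : ℕ → X, g = fun n => (val (κ n) * (f n : ℂ)) • y n := ⟨_, rfl⟩
  have hgM : ∀ n, ‖g n‖ ≤ C * M := by
    intro n
    rw [hg]
    simp only
    rw [norm_smul, norm_mul, Complex.norm_real, Real.norm_eq_abs]
    have h4 : ‖val (κ n)‖ * |f n| ≤ C := by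
      calc ‖val (κ n)‖ * |f n| ≤ C * 1 := mul_le_mul (hvalk n) (hf1 n) (abs_nonneg _) hC
        _ = C := mul_one C
    exact mul_le_mul h4 (hM n) (norm_nonneg _) hC
  have h5 : ‖∑ n ∈ Icc 1 N, ∑ i ∈ range L, g (n + i)‖ ≤
      ∑ n ∈ Icc 1 N, H (fun i : Fin L => κ (n + i)) (pat f n) := by
    refine (norm_sum_le _ _).trans (sum_le_sum fun n _ => ?_)
    rw [hHval, hg]
    simp only
    have e1 : ∑ i ∈ range L, (val (κ (n + i)) * (f (n + i) : ℂ)) • y (n + i) =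
        (T ^ n) (∑ i ∈ range L, (val (κ (n + i)) * (f (n + i) : ℂ)) • y i) := by
      rw [map_sum]
      apply sum_congr rfl
      intro i _
      rw [map_smul, hy]
      simp only
      rw [pow_add]
      rfl
    rw [e1]
    exact hTn n _
  have h6 : ‖(L:ℂ) • ∑ n ∈ Icc 1 N, g n‖ ≤
      ∑ n ∈ Icc 1 N, H (fun i : Fin L => κ (n + i)) (pat f n) + 2 * (C * M) * L * L := by
    have e1 : (L:ℂ) • ∑ n ∈ Icc 1 N, g n = ∑ n ∈ Icc 1 N, ∑ i ∈ range L, g (n + i) -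
        ∑ i ∈ range L, (∑ n ∈ Icc 1 N, g (n + i) - ∑ n ∈ Icc 1 N, g n) := by
      rw [sum_comm, sum_sub_distrib, sub_sub_cancel, sum_const, card_range]
      rw [← Nat.cast_smul_eq_nsmul ℂ]
    rw [e1]
    refine (norm_sub_le _ _).trans (add_le_add h5 ?_)
    refine (norm_sum_le _ _).trans ?_
    have h7 : ∀ i ∈ range L, ‖∑ n ∈ Icc 1 N, g (n + i) - ∑ n ∈ Icc 1 N, g n‖ ≤ 2 * (C * M) * L := by
      intro i hi
      refine (shift_sum g (C * M) hgM N i).trans ?_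
      have : (i:ℝ) ≤ L := by exact_mod_cast (mem_range.mp hi).le
      have : 0 ≤ C * M := mul_nonneg hC hM0
      gcongr
    refine (sum_le_sum h7).trans (le_of_eq ?_)
    rw [sum_const, card_range, nsmul_eq_mul]; ring
  rw [norm_smul, Complex.norm_natCast] at h6
  rw [div_lt_iff₀ hN0] at h2
  have h9 : (L:ℝ) * ‖∑ n ∈ Icc 1 N, g n‖ ≤ L * ((b + ε) * N) := by
    calc (L:ℝ) * ‖∑ n ∈ Icc 1 N, g n‖ ≤
        ∑ n ∈ Icc 1 N, H (fun i : Fin L => κ (n + i)) (pat f n) + 2 * (C * M) * L * L := h6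
      _ ≤ N * ((b + ε / 3 + ε / 3) * L) + 2 * (C * M) * L * L := by linarith
      _ = L * ((b + ε / 3 + ε / 3) * N + 2 * L * (C * M)) := by ring
      _ ≤ L * ((b + ε / 3 + ε / 3) * N + ε / 3 * N) := by
          apply mul_le_mul_of_nonneg_left _ hL0.le
          linarith
      _ = L * ((b + ε) * N) := by ring
  have h10 := le_of_mul_le_mul_left h9 hL0
  rw [hb, hg] at h10
  exact h10

end Pool.Agent.L0h54.SK
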