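import Mathlib

set_option autoImplicit false

/-! Random signs and matrices: the moment method. -/

namespace Pool.Agent.L0h54.SK

open Finset Filter
open scoped Classical Topology symmDiff

/-- the signs -/
noncomputable def ep (E : Finset ℕ) (h : ℕ) : ℝ := if h ∈ E then -1 else 1

/-- characters of the group of subsets of `range L` -/
def IsChar (L : ℕ) (w : Finset ℕ → ℝ) : Prop :=
  ∀ E ∈ (range L).powerset, ∀ E' ∈ (range L).powerset, w (E ∆ E') = w E * w E'

lemma ep_char (L h : ℕ) : IsChar L (fun E => ep E h) := by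
  intro E _ E' _
  simp only
  unfold ep
  by_cases h1 : h ∈ E <;> by_cases h2 : h ∈ E' <;> simp [h1, h2, mem_symmDiff]

lemma IsChar.mul {L : ℕ} {w w' : Finset ℕ → ℝ} (hw : IsChar L w) (hw' : IsChar L w') :
    IsChar L (fun E => w E * w' E) := by
  intro E hE E' hE'
  simp only
  rw [hw E hE E' hE', hw' E hE E' hE']
  ring

lemma IsChar.sum_nonneg {L : ℕ} {w : Finset ℕ → ℝ} (hw : IsChar L w) :
    0 ≤ ∑ E ∈ (range L).powerset, w E := by
  obtain ⟨S, hS⟩ : ∃ S, S = ∑ E ∈ (range L).powerset, w E := ⟨_, rfl⟩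
  have h1 : S * S = 2 ^ L * S := by
    have h2 : S * S = ∑ E ∈ (range L).powerset, ∑ E' ∈ (range L).powerset, w (E ∆ E') := by
      rw [hS, sum_mul_sum]
      apply sum_congr rfl; intro E hE
      apply sum_congr rfl; intro E' hE'
      rw [hw E hE E' hE']
    have h3 : ∀ E ∈ (range L).powerset, ∑ E' ∈ (range L).powerset, w (E ∆ E') = S := by
      intro E hE
      rw [hS]
      rw [mem_powerset] at hE
      apply sum_nbij' (fun E' => E ∆ E') (fun E' => E ∆ E')
      · intro E' hE'
        rw [mem_powerset] at hE' ⊢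
        intro x hx
        rw [mem_symmDiff] at hx
        rcases hx with h | h
        · exact hE h.1
        · exact hE' h.1
      · intro E' hE'
        rw [mem_powerset] at hE' ⊢
        intro x hx
        rw [mem_symmDiff] at hx
        rcases hx with h | h
        · exact hE h.1
        · exact hE' h.1
      · intro E' _; exact symmDiff_symmDiff_cancel_left E E'
      · intro E' _; exact symmDiff_symmDiff_cancel_left E E'
      · intro E' _; rfl
    rw [h2, sum_congr rfl h3, sum_const, card_powerset, card_range, nsmul_eq_mul]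
    push_cast; rfl
  rw [← hS]
  by_contra h
  push Not at h
  have h2 : 0 < S * S := mul_pos_of_neg_of_neg h h
  have h3 : (2:ℝ) ^ L * S < 0 := mul_neg_of_pos_of_neg (by positivity) h
  linarith

/-- domination of a vector valued function of the signs by a scalar function -/
inductive Dom (L : ℕ) {A : Type} [NormedRing A] [NormedAlgebra ℂ A] :
    (Finset ℕ → A) → (Finset ℕ → ℝ) → Prop
  | zero : Dom L (fun _ => 0) (fun _ => 0)
  | term (w : Finset ℕ → ℝ) (hw : IsChar L w) (x : A) (c : ℝ) (h : ‖x‖ ≤ c) :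
      Dom L (fun E => (w E : ℂ) • x) (fun E => w E * c)
  | add (F F' : Finset ℕ → A) (g g' : Finset ℕ → ℝ) : Dom L F g → Dom L F' g' →
      Dom L (fun E => F E + F' E) (fun E => g E + g' E)

variable {A : Type} [NormedRing A] [NormedAlgebra ℂ A]

lemma dom_term_mul {L : ℕ} (w : Finset ℕ → ℝ) (hw : IsChar L w) (x : A) (c : ℝ) (h : ‖x‖ ≤ c)
    {F : Finset ℕ → A} {g : Finset ℕ → ℝ} (hd : Dom L F g) :
    Dom L (fun E => ((w E : ℂ) • x) * F E) (fun E => (w E * c) * g E) := by
  induction hd with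
  | zero =>
    simp only [mul_zero]
    exact Dom.zero
  | term w' hw' x' c' h' =>
    have h1 := Dom.term (A := A) (fun E => w E * w' E) (hw.mul hw') (x * x') (c * c')
      ((norm_mul_le x x').trans (mul_le_mul h h' (norm_nonneg _) ((norm_nonneg _).trans h)))
    have e1 : (fun E => (((w E * w' E : ℝ)) : ℂ) • (x * x')) =
        (fun E => ((w E : ℂ) • x) * ((w' E : ℂ) • x')) := by
      funext E
      rw [smul_mul_smul_comm]
      push_cast; rfl
    have e2 : (fun E => (w E * w' E) * (c * c')) = (fun E => (w E * c) * (w' E * c')) := by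
      funext E; ring
    rw [e1, e2] at h1
    exact h1
  | add F F' g g' _ _ ih1 ih2 =>
    have h1 := Dom.add _ _ _ _ ih1 ih2
    simp only [mul_add]
    exact h1

lemma Dom.mul {L : ℕ} {F F' : Finset ℕ → A} {g g' : Finset ℕ → ℝ} (hd : Dom L F g)
    (hd' : Dom L F' g') : Dom L (fun E => F E * F' E) (fun E => g E * g' E) := by
  induction hd with
  | zero =>
    simp only [zero_mul]
    exact Dom.zero
  | term w hw x c h => exact dom_term_mul w hw x c h hd'
  | add F F'' g g'' _ _ ih1 ih2 =>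
    have h1 := Dom.add _ _ _ _ ih1 ih2
    simp only [add_mul]
    exact h1

lemma Dom.pow {L : ℕ} {F : Finset ℕ → A} {g : Finset ℕ → ℝ} (hd : Dom L F g) (q : ℕ) :
    Dom L (fun E => F E ^ (q + 1)) (fun E => g E ^ (q + 1)) := by
  induction q with
  | zero => simpa using hd
  | succ q ih =>
    have h1 := ih.mul hd
    simpa [pow_succ] using h1

lemma Dom.sum {L : ℕ} (I : Finset ℕ) (F : ℕ → Finset ℕ → A) (g : ℕ → Finset ℕ → ℝ)
    (h : ∀ i ∈ I, Dom L (F i) (g i)) : Dom L (fun E => ∑ i ∈ I, F i E) (fun E => ∑ i ∈ I, g i E) := by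
  induction I using Finset.induction_on with
  | empty =>
    simp only [sum_empty]
    exact Dom.zero
  | insert i I hi ih =>
    simp only [sum_insert hi]
    exact Dom.add _ _ _ _ (h i (mem_insert_self i I)) (ih fun j hj => h j (mem_insert_of_mem hj))

lemma Dom.eval {L : ℕ} {F : Finset ℕ → A} {g : Finset ℕ → ℝ} (hd : Dom L F g) :
    ‖∑ E ∈ (range L).powerset, F E‖ ≤ ∑ E ∈ (range L).powerset, g E := by
  induction hd with
  | zero => simp
  | term w hw x c h =>
    rw [← sum_smul, norm_smul, ← sum_mul]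
    have e : ∑ E ∈ (range L).powerset, ((w E : ℝ) : ℂ) =
        ((∑ E ∈ (range L).powerset, w E : ℝ) : ℂ) := by push_cast; rfl
    rw [e, Complex.norm_real, Real.norm_eq_abs, abs_of_nonneg hw.sum_nonneg]
    exact mul_le_mul_of_nonneg_left h hw.sum_nonneg
  | add F F' g g' _ _ ih1 ih2 =>
    rw [sum_add_distrib, sum_add_distrib]
    exact (norm_add_le _ _).trans (add_le_add ih1 ih2)

/-- the scalar moments -/
lemma scalar_mom (L q : ℕ) (hL : 1 ≤ L) (hq : 1 ≤ q) :
    ∑ E ∈ (range L).powerset, (∑ h ∈ range L, ep E h) ^ (2 * q) ≤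
      2 * 2 ^ L * (2 * q * Real.exp 1 * L) ^ q := by
  have hL0 : (0:ℝ) < L := by exact_mod_cast hL
  have hq0 : (0:ℝ) < q := by exact_mod_cast hq
  obtain ⟨l, hl⟩ : ∃ l, l = Real.sqrt (2 * q / L) := ⟨_, rfl⟩
  have hl2 : l ^ 2 = 2 * q / L := by rw [hl]; exact Real.sq_sqrt (by positivity)
  have hl0 : 0 < l := by rw [hl]; positivity
  have hexp : ∀ t : ℝ, t ^ 2 = l ^ 2 → ∑ E ∈ (range L).powerset,
      Real.exp (t * ∑ h ∈ range L, ep E h) ≤ 2 ^ L * Real.exp q := by
    intro t ht
    have h1 : ∀ E ∈ (range L).powerset, Real.exp (t * ∑ h ∈ range L, ep E h) =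
        (∏ h ∈ E, Real.exp (-t)) * ∏ h ∈ range L \ E, Real.exp t := by
      intro E hE
      rw [mem_powerset] at hE
      rw [mul_sum, Real.exp_sum, ← prod_sdiff hE, mul_comm]
      congr 1
      · apply prod_congr rfl
        intro h hh
        unfold ep
        rw [if_pos hh]; congr 1; ring
      · apply prod_congr rfl
        intro h hh
        unfold ep
        rw [if_neg (mem_sdiff.mp hh).2]; congr 1; ring
    rw [sum_congr rfl h1, ← prod_add, prod_const, card_range]
    have h2 : Real.exp (-t) + Real.exp t = 2 * Real.cosh t := by rw [Real.cosh_eq]; ring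
    rw [h2, mul_pow]
    apply mul_le_mul_of_nonneg_left _ (by positivity)
    calc Real.cosh t ^ L ≤ (Real.exp (t ^ 2 / 2)) ^ L :=
          pow_le_pow_left₀ (Real.cosh_pos t).le (Real.cosh_le_exp_half_sq t) L
      _ = Real.exp q := by
          rw [← Real.exp_nat_mul, ht, hl2]
          congr 1
          field_simp
  have hterm : ∀ E ∈ (range L).powerset, (∑ h ∈ range L, ep E h) ^ (2 * q) ≤
      ((2 * q : ℕ) : ℝ) ^ (2 * q) / l ^ (2 * q) * (Real.exp (l * ∑ h ∈ range L, ep E h) +
        Real.exp (-l * ∑ h ∈ range L, ep E h)) := by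
    intro E _
    obtain ⟨S, hS⟩ : ∃ S, S = ∑ h ∈ range L, ep E h := ⟨_, rfl⟩
    rw [← hS]
    have h1 := Real.pow_div_factorial_le_exp (|l * S|) (abs_nonneg _) (2 * q)
    have h2 : |l * S| ^ (2 * q) = l ^ (2 * q) * S ^ (2 * q) := by
      rw [pow_mul, sq_abs, mul_pow, mul_pow, ← pow_mul, ← pow_mul]
    have h3 : Real.exp (|l * S|) ≤ Real.exp (l * S) + Real.exp (-l * S) := by
      rcases abs_choice (l * S) with h | h
      · rw [h]; have := Real.exp_pos (-l * S); linarith
      · rw [h, show -(l * S) = -l * S by ring]; have := Real.exp_pos (l * S); linarith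
    have h4 : ((2 * q).factorial : ℝ) ≤ ((2 * q : ℕ) : ℝ) ^ (2 * q) := by
      exact_mod_cast Nat.factorial_le_pow (2 * q)
    have hf : (0:ℝ) < ((2 * q).factorial : ℝ) := by exact_mod_cast Nat.factorial_pos _
    rw [h2, div_le_iff₀ hf] at h1
    have hlq : 0 < l ^ (2 * q) := by positivity
    have he : 0 ≤ Real.exp (l * S) + Real.exp (-l * S) := by positivity
    rw [div_mul_eq_mul_div, le_div_iff₀ hlq]
    calc S ^ (2 * q) * l ^ (2 * q) = l ^ (2 * q) * S ^ (2 * q) := mul_comm _ _
      _ ≤ Real.exp (|l * S|) * ((2 * q).factorial : ℝ) := h1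
      _ ≤ (Real.exp (l * S) + Real.exp (-l * S)) * (((2 * q : ℕ) : ℝ) ^ (2 * q)) := by gcongr
      _ = _ := by ring
  refine (sum_le_sum hterm).trans ?_
  rw [← mul_sum, sum_add_distrib]
  have h5 := hexp l rfl
  have h6 := hexp (-l) (by ring)
  calc ((2 * q : ℕ) : ℝ) ^ (2 * q) / l ^ (2 * q) * (∑ E ∈ (range L).powerset,
        Real.exp (l * ∑ h ∈ range L, ep E h) + ∑ E ∈ (range L).powerset,
        Real.exp (-l * ∑ h ∈ range L, ep E h)) ≤
      ((2 * q : ℕ) : ℝ) ^ (2 * q) / l ^ (2 * q) * (2 ^ L * Real.exp q + 2 ^ L * Real.exp q) := by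
        gcongr
    _ = 2 * 2 ^ L * (2 * q * Real.exp 1 * L) ^ q := by
        rw [pow_mul l, hl2]
        push_cast
        rw [pow_mul, ← div_pow]
        have e1 : (2 * (q:ℝ)) ^ 2 / (2 * q / L) = 2 * q * L := by field_simp
        rw [e1, show Real.exp (q:ℝ) = Real.exp 1 ^ q by rw [← Real.exp_nat_mul, mul_one]]
        rw [show 2 * (q:ℝ) * Real.exp 1 * L = (2 * q * L) * Real.exp 1 by ring, mul_pow]
        ring

end Pool.Agent.L0h54.SK
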