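import Mathlib

set_option autoImplicit false

/-! Sign symmetry of the patterns of a function with vanishing correlations. -/

namespace Pool.Agent.L0h54.SK

open Finset Filter
open scoped Classical Topology

/-- vanishing correlations -/
def Ch (F : ℕ → ℝ) : Prop := ∀ B D : Finset ℕ, B.Nonempty →
  Tendsto (fun N : ℕ => (∑ n ∈ Icc 1 N, (∏ b ∈ B, F (n + b)) * ∏ d ∈ D, F (n + d) ^ 2) / N) atTop (𝓝 0)

/-- `K` depends only on the coordinates in `J` -/
def DepOn (J : Finset ℕ) (K : (ℕ → ℝ) → ℝ) : Prop :=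
  ∀ s s' : ℕ → ℝ, (∀ i ∈ J, s i = s' i) → K s = K s'

/-- the pattern at `n` -/
def pat (F : ℕ → ℝ) (n : ℕ) : ℕ → ℝ := fun h => F (n + h)

/-- replacing a coordinate -/
noncomputable def upd (s : ℕ → ℝ) (i : ℕ) (v : ℝ) : ℕ → ℝ := fun j => if j = i then v else s j

lemma expand (K : (ℕ → ℝ) → ℝ) (i : ℕ) (s : ℕ → ℝ) (hs : s i = 0 ∨ s i = 1 ∨ s i = -1)
    (J : Finset ℕ) (hK : DepOn (insert i J) K) :
    K s = K (upd s i 0) + s i * ((K (upd s i 1) - K (upd s i (-1))) / 2) +
      s i ^ 2 * ((K (upd s i 1) + K (upd s i (-1))) / 2 - K (upd s i 0)) := by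
  have h : ∀ v, s i = v → K s = K (upd s i v) := by
    intro v hv
    apply hK
    intro j _
    unfold upd
    split_ifs with hj
    · rw [hj, hv]
    · rfl
  rcases hs with h0 | h0 | h0
  · rw [h0, ← h 0 h0]; ring
  · rw [h0, ← h 1 h0]; ring
  · rw [h0, ← h (-1) h0]; ring

lemma dep_upd (K : (ℕ → ℝ) → ℝ) (i : ℕ) (J : Finset ℕ) (hK : DepOn (insert i J) K) (v : ℝ) :
    DepOn J (fun s => K (upd s i v)) := by
  intro s s' h
  apply hK
  intro j hj
  unfold upd
  split_ifs with hji
  · rfl
  · rw [mem_insert] at hj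
    exact h j (hj.resolve_left hji)

/-- correlations with arbitrary functions of other coordinates -/
lemma corr_fun (F : ℕ → ℝ) (hF : ∀ n, F n = 0 ∨ F n = 1 ∨ F n = -1) (hch : Ch F) (J : Finset ℕ) :
    ∀ (K : (ℕ → ℝ) → ℝ), DepOn J K → ∀ B D : Finset ℕ, B.Nonempty → Disjoint B J → Disjoint D J →
    Tendsto (fun N : ℕ => (∑ n ∈ Icc 1 N, (∏ b ∈ B, F (n + b)) * (∏ d ∈ D, F (n + d) ^ 2) *
      K (pat F n)) / N) atTop (𝓝 0) := by
  induction J using Finset.induction_on with
  | empty =>
    intro K hK B D hB _ _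
    have h1 : ∀ s, K s = K 0 := fun s => hK s 0 (by simp)
    have h2 := (hch B D hB).mul_const (K 0)
    rw [zero_mul] at h2
    refine h2.congr fun N => ?_
    rw [div_mul_eq_mul_div, sum_mul]
    congr 1
    apply sum_congr rfl
    intro n _
    rw [h1 (pat F n)]
  | insert i J hi ih =>
    intro K hK B D hB hBJ hDJ
    rw [disjoint_insert_right] at hBJ hDJ
    have h0 := ih (fun s => K (upd s i 0)) (dep_upd K i J hK 0) B D hB hBJ.2 hDJ.2
    have hdep1 : DepOn J (fun s => (K (upd s i 1) - K (upd s i (-1))) / 2) := by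
      intro s s' h
      have e1 := dep_upd K i J hK 1 s s' h
      have e2 := dep_upd K i J hK (-1) s s' h
      simp only at e1 e2 ⊢
      rw [e1, e2]
    have hdep2 : DepOn J (fun s => (K (upd s i 1) + K (upd s i (-1))) / 2 - K (upd s i 0)) := by
      intro s s' h
      have e1 := dep_upd K i J hK 1 s s' h
      have e2 := dep_upd K i J hK (-1) s s' h
      have e3 := dep_upd K i J hK 0 s s' h
      simp only at e1 e2 e3 ⊢
      rw [e1, e2, e3]
    have h1 := ih _ hdep1 (insert i B) D (insert_nonempty i B)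
      (disjoint_insert_left.mpr ⟨hi, hBJ.2⟩) hDJ.2
    have h2 := ih _ hdep2 B (insert i D) hB hBJ.2 (disjoint_insert_left.mpr ⟨hi, hDJ.2⟩)
    have h3 := (h0.add h1).add h2
    simp only [add_zero] at h3
    refine h3.congr fun N => ?_
    rw [← add_div, ← add_div, ← sum_add_distrib, ← sum_add_distrib]
    congr 1
    apply sum_congr rfl
    intro n _
    rw [expand K i (pat F n) (hF (n + i)) J hK, prod_insert hBJ.1, prod_insert hDJ.1]
    unfold pat
    ring

/-- flipping the signs in `E` -/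
noncomputable def flp (E : Finset ℕ) (s : ℕ → ℝ) : ℕ → ℝ := fun i => if i ∈ E then - s i else s i

lemma flp_empty (s : ℕ → ℝ) : flp ∅ s = s := by
  funext i; unfold flp; simp

lemma flp_insert (j : ℕ) (E : Finset ℕ) (hj : j ∉ E) (s : ℕ → ℝ) :
    flp (insert j E) s = flp E (flp {j} s) := by
  funext i
  unfold flp
  by_cases h1 : i = j
  · subst h1; simp [hj]
  · simp [h1]

lemma dep_flp (J E : Finset ℕ) (G : (ℕ → ℝ) → ℝ) (hG : DepOn J G) : DepOn J (fun s => G (flp E s)) := by
  intro s s' h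
  apply hG
  intro i hi
  unfold flp
  rw [h i hi]

/-- a single flip -/
lemma single_flip (F : ℕ → ℝ) (hF : ∀ n, F n = 0 ∨ F n = 1 ∨ F n = -1) (hch : Ch F) (J : Finset ℕ)
    (G : (ℕ → ℝ) → ℝ) (hG : DepOn J G) (j : ℕ) :
    Tendsto (fun N : ℕ => (∑ n ∈ Icc 1 N, (G (pat F n) - G (flp {j} (pat F n)))) / N) atTop (𝓝 0) := by
  have hG' : DepOn (insert j (J.erase j)) G := by
    intro s s' h
    apply hG
    intro i hi
    by_cases hij : i = j
    · exact h i (by rw [hij]; exact mem_insert_self _ _)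
    · exact h i (mem_insert_of_mem (mem_erase.mpr ⟨hij, hi⟩))
  have hdep : DepOn (J.erase j) (fun s => G (upd s j 1) - G (upd s j (-1))) := by
    intro s s' h
    have e1 := dep_upd G j (J.erase j) hG' 1 s s' h
    have e2 := dep_upd G j (J.erase j) hG' (-1) s s' h
    simp only at e1 e2 ⊢
    rw [e1, e2]
  have h1 := corr_fun F hF hch (J.erase j) _ hdep {j} ∅ (singleton_nonempty j)
    (by rw [disjoint_singleton_left]; exact notMem_erase j J) (disjoint_empty_left _)
  refine h1.congr fun N => ?_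
  congr 1
  apply sum_congr rfl
  intro n _
  rw [prod_singleton, prod_empty, mul_one]
  have h : ∀ s : ℕ → ℝ, ∀ v, s j = v → G s = G (upd s j v) := by
    intro s v hv
    apply hG
    intro i _
    unfold upd
    split_ifs with hi
    · rw [hi, hv]
    · rfl
  have e0 : ∀ v, upd (flp {j} (pat F n)) j v = upd (pat F n) j v := by
    intro v
    funext i
    unfold upd flp
    by_cases hi : i = j
    · simp [hi]
    · simp [hi]
  have ej : (flp {j} (pat F n)) j = - F (n + j) := by unfold flp pat; simp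
  rcases hF (n + j) with h0 | h0 | h0
  · have e1 : flp {j} (pat F n) = pat F n := by
      funext i
      unfold flp
      by_cases hi : i = j
      · subst hi; simp only [mem_singleton, if_true]; unfold pat; rw [h0]; ring
      · simp [hi]
    rw [e1, h0]; ring
  · rw [h (pat F n) 1 h0, h (flp {j} (pat F n)) (-1) (by rw [ej, h0]), e0, h0]; ring
  · rw [h (pat F n) (-1) h0, h (flp {j} (pat F n)) 1 (by rw [ej, h0]; ring), e0, h0]; ring

/-- all flips -/
lemma all_flips (F : ℕ → ℝ) (hF : ∀ n, F n = 0 ∨ F n = 1 ∨ F n = -1) (hch : Ch F) (J E : Finset ℕ) :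
    ∀ (G : (ℕ → ℝ) → ℝ), DepOn J G →
    Tendsto (fun N : ℕ => (∑ n ∈ Icc 1 N, (G (pat F n) - G (flp E (pat F n)))) / N) atTop (𝓝 0) := by
  induction E using Finset.induction_on with
  | empty =>
    intro G _
    simp only [flp_empty, sub_self, sum_const_zero, zero_div]
    exact tendsto_const_nhds
  | insert j E hj ih =>
    intro G hG
    have h1 := ih G hG
    have h2 := single_flip F hF hch J (fun s => G (flp E s)) (dep_flp J E G hG) j
    have h3 := h1.add h2
    rw [add_zero] at h3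
    refine h3.congr fun N => ?_
    rw [← add_div, ← sum_add_distrib]
    congr 1
    apply sum_congr rfl
    intro n _
    rw [flp_insert j E hj]
    ring

/-- the average over all the sign changes -/
theorem sym (F : ℕ → ℝ) (hF : ∀ n, F n = 0 ∨ F n = 1 ∨ F n = -1) (hch : Ch F) (L : ℕ)
    (G : (ℕ → ℝ) → ℝ) (hG : DepOn (range L) G) :
    Tendsto (fun N : ℕ => (∑ n ∈ Icc 1 N, (G (pat F n) -
      (1 / 2 ^ L) * ∑ E ∈ (range L).powerset, G (flp E (pat F n)))) / N) atTop (𝓝 0) := by
  have h1 : Tendsto (fun N : ℕ => ∑ E ∈ (range L).powerset, (1 / 2 ^ L : ℝ) *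
      ((∑ n ∈ Icc 1 N, (G (pat F n) - G (flp E (pat F n)))) / N)) atTop (𝓝 0) := by
    have h2 := tendsto_finsetSum (range L).powerset (fun E _ =>
      (all_flips F hF hch (range L) E G hG).const_mul (1 / 2 ^ L : ℝ))
    simpa using h2
  refine h1.congr fun N => ?_
  rw [← mul_sum, ← sum_div, sum_comm, mul_div_assoc', mul_sum]
  congr 1
  apply sum_congr rfl
  intro n _
  rw [sum_sub_distrib, sum_const, card_powerset, card_range, nsmul_eq_mul]
  push_cast
  field_simp

end Pool.Agent.L0h54.SK
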