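import Pool.Agent.L0h54.SK.Pat

set_option autoImplicit false

/-! Sign symmetry of the patterns of a `±1` sequence, with weights. -/

namespace Pool.Agent.L0h54.SK

open Finset Filter
open scoped Classical Topology

/-- vanishing weighted correlations -/
def Chw (f : ℕ → ℝ) (w : ℕ → ℝ) : Prop := ∀ B : Finset ℕ, B.Nonempty →
  Tendsto (fun N : ℕ => (∑ n ∈ Icc 1 N, w n * ∏ b ∈ B, f (n + b)) / N) atTop (𝓝 0)

lemma expandW (K : (ℕ → ℝ) → ℝ) (i : ℕ) (s : ℕ → ℝ) (hs : s i = 1 ∨ s i = -1)
    (J : Finset ℕ) (hK : DepOn (insert i J) K) :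
    K s = (K (upd s i 1) + K (upd s i (-1))) / 2 + s i * ((K (upd s i 1) - K (upd s i (-1))) / 2) := by
  have h : ∀ v, s i = v → K s = K (upd s i v) := by
    intro v hv
    apply hK
    intro j _
    unfold upd
    split_ifs with hj
    · rw [hj, hv]
    · rfl
  rcases hs with h0 | h0
  · rw [h0, ← h 1 h0]; ring
  · rw [h0, ← h (-1) h0]; ring

lemma corr_funW (f w : ℕ → ℝ) (hf : ∀ n, f n = 1 ∨ f n = -1) (hch : Chw f w) (J : Finset ℕ) :
    ∀ (K : (ℕ → ℝ) → ℝ), DepOn J K → ∀ B : Finset ℕ, B.Nonempty → Disjoint B J →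
    Tendsto (fun N : ℕ => (∑ n ∈ Icc 1 N, w n * (∏ b ∈ B, f (n + b)) * K (pat f n)) / N) atTop (𝓝 0) := by
  induction J using Finset.induction_on with
  | empty =>
    intro K hK B hB _
    have h1 : ∀ s, K s = K 0 := fun s => hK s 0 (by simp)
    have h2 := (hch B hB).mul_const (K 0)
    rw [zero_mul] at h2
    refine h2.congr fun N => ?_
    rw [div_mul_eq_mul_div, sum_mul]
    congr 1
    apply sum_congr rfl
    intro n _
    rw [h1 (pat f n)]
  | insert i J hi ih =>
    intro K hK B hB hBJ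
    rw [disjoint_insert_right] at hBJ
    have hdep1 : DepOn J (fun s => (K (upd s i 1) + K (upd s i (-1))) / 2) := by
      intro s s' h
      have e1 := dep_upd K i J hK 1 s s' h
      have e2 := dep_upd K i J hK (-1) s s' h
      simp only at e1 e2 ⊢
      rw [e1, e2]
    have hdep2 : DepOn J (fun s => (K (upd s i 1) - K (upd s i (-1))) / 2) := by
      intro s s' h
      have e1 := dep_upd K i J hK 1 s s' h
      have e2 := dep_upd K i J hK (-1) s s' h
      simp only at e1 e2 ⊢
      rw [e1, e2]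
    have h0 := ih _ hdep1 B hB hBJ.2
    have h1 := ih _ hdep2 (insert i B) (insert_nonempty i B) (disjoint_insert_left.mpr ⟨hi, hBJ.2⟩)
    have h3 := h0.add h1
    rw [add_zero] at h3
    refine h3.congr fun N => ?_
    rw [← add_div, ← sum_add_distrib]
    congr 1
    apply sum_congr rfl
    intro n _
    rw [expandW K i (pat f n) (hf (n + i)) J hK, prod_insert hBJ.1]
    unfold pat
    ring

lemma single_flipW (f w : ℕ → ℝ) (hf : ∀ n, f n = 1 ∨ f n = -1) (hch : Chw f w) (J : Finset ℕ)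
    (G : (ℕ → ℝ) → ℝ) (hG : DepOn J G) (j : ℕ) :
    Tendsto (fun N : ℕ => (∑ n ∈ Icc 1 N, w n * (G (pat f n) - G (flp {j} (pat f n)))) / N) atTop (𝓝 0) := by
  have hG' : DepOn (insert j (J.erase j)) G := by
    intro s s' h
    apply hG
    intro i hi
    by_cases hij : i = j
    · exact h i (by rw [hij]; exact mem_insert_self _ _)
    · exact h i (mem_insert_of_mem (mem_erase.mpr ⟨hij, hi⟩))
  have hdep : DepOn (J.erase j) (fun s => G (upd s j 1) - G (upd s j (-1))) := by
    intro s s' h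
    have e1 := dep_upd G j (J.erase j) hG' 1 s s' h
    have e2 := dep_upd G j (J.erase j) hG' (-1) s s' h
    simp only at e1 e2 ⊢
    rw [e1, e2]
  have h1 := corr_funW f w hf hch (J.erase j) _ hdep {j} (singleton_nonempty j)
    (by rw [disjoint_singleton_left]; exact notMem_erase j J)
  refine h1.congr fun N => ?_
  congr 1
  apply sum_congr rfl
  intro n _
  rw [prod_singleton, mul_assoc]
  congr 1
  have h : ∀ s : ℕ → ℝ, ∀ v, s j = v → G s = G (upd s j v) := by
    intro s v hv
    apply hG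
    intro i _
    unfold upd
    split_ifs with hi
    · rw [hi, hv]
    · rfl
  have e0 : ∀ v, upd (flp {j} (pat f n)) j v = upd (pat f n) j v := by
    intro v
    funext i
    unfold upd flp
    by_cases hi : i = j
    · simp [hi]
    · simp [hi]
  have ej : (flp {j} (pat f n)) j = - f (n + j) := by unfold flp pat; simp
  rcases hf (n + j) with h0 | h0
  · rw [h (pat f n) 1 h0, h (flp {j} (pat f n)) (-1) (by rw [ej, h0]), e0, h0]; ring
  · rw [h (pat f n) (-1) h0, h (flp {j} (pat f n)) 1 (by rw [ej, h0]; ring), e0, h0]; ring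

lemma all_flipsW (f w : ℕ → ℝ) (hf : ∀ n, f n = 1 ∨ f n = -1) (hch : Chw f w) (J E : Finset ℕ) :
    ∀ (G : (ℕ → ℝ) → ℝ), DepOn J G →
    Tendsto (fun N : ℕ => (∑ n ∈ Icc 1 N, w n * (G (pat f n) - G (flp E (pat f n)))) / N) atTop (𝓝 0) := by
  induction E using Finset.induction_on with
  | empty =>
    intro G _
    simp only [flp_empty, sub_self, mul_zero, sum_const_zero, zero_div]
    exact tendsto_const_nhds
  | insert j E hj ih =>
    intro G hG
    have h1 := ih G hG
    have h2 := single_flipW f w hf hch J (fun s => G (flp E s)) (dep_flp J E G hG) j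
    have h3 := h1.add h2
    rw [add_zero] at h3
    refine h3.congr fun N => ?_
    rw [← add_div, ← sum_add_distrib]
    congr 1
    apply sum_congr rfl
    intro n _
    rw [flp_insert j E hj]
    ring

theorem symW (f w : ℕ → ℝ) (hf : ∀ n, f n = 1 ∨ f n = -1) (hch : Chw f w) (L : ℕ)
    (G : (ℕ → ℝ) → ℝ) (hG : DepOn (range L) G) :
    Tendsto (fun N : ℕ => (∑ n ∈ Icc 1 N, w n * (G (pat f n) -
      (1 / 2 ^ L) * ∑ E ∈ (range L).powerset, G (flp E (pat f n)))) / N) atTop (𝓝 0) := by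
  have h1 : Tendsto (fun N : ℕ => ∑ E ∈ (range L).powerset, (1 / 2 ^ L : ℝ) *
      ((∑ n ∈ Icc 1 N, w n * (G (pat f n) - G (flp E (pat f n)))) / N)) atTop (𝓝 0) := by
    have h2 := tendsto_finsetSum (range L).powerset (fun E _ =>
      (all_flipsW f w hf hch (range L) E G hG).const_mul (1 / 2 ^ L : ℝ))
    simpa using h2
  refine h1.congr fun N => ?_
  rw [← mul_sum, ← sum_div, sum_comm, mul_div_assoc', mul_sum]
  congr 1
  apply sum_congr rfl
  intro n _
  rw [← mul_sum, sum_sub_distrib, sum_const, card_powerset, card_range, nsmul_eq_mul]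
  push_cast
  field_simp

/-- finitely many functions -/
theorem symFin {ι : Type} (f : ℕ → ℝ) (hf : ∀ n, f n = 1 ∨ f n = -1) (L : ℕ) (I : Finset ι)
    (idx : ℕ → ι) (hidx : ∀ n, idx n ∈ I)
    (hch : ∀ i ∈ I, Chw f (fun n => if idx n = i then 1 else 0))
    (H : ι → (ℕ → ℝ) → ℝ) (hH : ∀ i, DepOn (range L) (H i)) :
    Tendsto (fun N : ℕ => (∑ n ∈ Icc 1 N, (H (idx n) (pat f n) -
      (1 / 2 ^ L) * ∑ E ∈ (range L).powerset, H (idx n) (flp E (pat f n)))) / N) atTop (𝓝 0) := by
  have h1 : Tendsto (fun N : ℕ => ∑ i ∈ I, ((∑ n ∈ Icc 1 N, (if idx n = i then (1:ℝ) else 0) *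
      (H i (pat f n) - (1 / 2 ^ L) * ∑ E ∈ (range L).powerset, H i (flp E (pat f n)))) / N))
      atTop (𝓝 0) := by
    have h2 := tendsto_finsetSum I (fun i hi => symW f _ hf (hch i hi) L (H i) (hH i))
    simpa using h2
  refine h1.congr fun N => ?_
  rw [← sum_div, sum_comm]
  congr 1
  apply sum_congr rfl
  intro n _
  rw [sum_eq_single_of_mem (idx n) (hidx n)]
  · rw [if_pos rfl, one_mul]
  · intro i _ hne
    rw [if_neg (Ne.symm hne), zero_mul]

end Pool.Agent.L0h54.SK
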